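import Mathlib

/-!
# Derivations and ideals of Dedekind domains
-/

namespace Pi2T

open Ideal

variable {B : Type*} [CommRing B] [IsDedekindDomain B]

theorem exists_mul_mem {I q : Ideal B} (hI : I ≠ ⊥) (hq : q.IsPrime) {n : ℕ} {y z : B}
    (hy : y ∈ I) (hyq : y ∉ I * q) (h : y ^ n * z ∈ I ^ (n + 1)) :
    ∃ s, s ∉ q ∧ s * z ∈ I := by
  obtain ⟨J, hJ⟩ : I ∣ span {y} := Ideal.dvd_iff_le.2 ((span_singleton_le_iff_mem _).2 hy)
  have hJq : ¬ J ≤ q := by
    intro hle
    apply hyq
    have : span {y} ≤ I * q := by rw [hJ]; exact Ideal.mul_mono le_rfl hle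
    exact this (mem_span_singleton_self y)
  have hJn : ¬ J ^ n ≤ q := fun h => hJq (hq.le_of_pow_le h)
  obtain ⟨s, hs, hsq⟩ := Set.not_subset.1 hJn
  refine ⟨s, hsq, ?_⟩
  have h1 : I ^ (n + 1) ∣ I ^ n * (J ^ n * span {z}) := by
    rw [← mul_assoc, ← mul_pow, ← hJ, span_singleton_pow, span_singleton_mul_span_singleton]
    exact Ideal.dvd_iff_le.2 ((span_singleton_le_iff_mem _).2 h)
  rw [pow_succ] at h1
  have h2 : I ∣ J ^ n * span {z} := (mul_dvd_mul_iff_left (pow_ne_zero n hI)).1 h1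
  exact Ideal.dvd_iff_le.1 h2 (Ideal.mul_mem_mul hs (mem_span_singleton_self z))

/-- In a Dedekind domain, if `n` is invertible and `I ^ n` is stable under the derivation `δ`,
then so is `I`. -/
theorem derivation_mem_of_pow {R : Type*} [CommRing R] [Algebra R B] (δ : Derivation R B B)
    {I : Ideal B} (hI : I ≠ ⊥) {n : ℕ} (hn : IsUnit (n : B))
    (h : ∀ y ∈ I ^ n, δ y ∈ I ^ n) {y : B} (hy : y ∈ I) : δ y ∈ I := by
  rcases n with _ | n
  · simp at hn
  -- local statement
  have hloc : ∀ q : Ideal B, q.IsPrime → ∀ y ∈ I, y ∉ I * q → ∃ s, s ∉ q ∧ s * δ y ∈ I := by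
    intro q hq y hy hyq
    refine exists_mul_mem (n := n) hI hq hy hyq ?_
    have h1 := h (y ^ (n + 1)) (Ideal.pow_mem_pow hy _)
    rw [Derivation.leibniz_pow] at h1
    simp only [add_tsub_cancel_right, smul_eq_mul, nsmul_eq_mul] at h1
    obtain ⟨u, hu⟩ := hn
    have h2 := (I ^ (n + 1)).mul_mem_left (↑u⁻¹) h1
    rwa [← mul_assoc, ← hu, Units.inv_mul, one_mul] at h2
  -- the ideal of multipliers
  have hcol : (I.colon {δ y}) = ⊤ := by
    by_contra hne
    obtain ⟨q, hqm, hle⟩ := Ideal.exists_le_maximal _ hne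
    have hq := hqm.isPrime
    have hIq : ∃ u ∈ I, u ∉ I * q := by
      by_contra hcon
      push Not at hcon
      have h1 : I * q = I * ⊤ := by
        rw [Ideal.mul_top]
        exact le_antisymm Ideal.mul_le_left hcon
      exact hqm.ne_top (mul_left_cancel₀ hI h1)
    obtain ⟨u, hu, huq⟩ := hIq
    have hfin : ∃ s, s ∉ q ∧ s * δ y ∈ I := by
      by_cases hyq : y ∈ I * q
      · have h1 : y + u ∉ I * q := fun hcon => huq (by
          have := (I * q).sub_mem hcon hyq
          simpa using this)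
        obtain ⟨s, hs, hsy⟩ := hloc q hq (y + u) (I.add_mem hy hu) h1
        obtain ⟨t, ht, htu⟩ := hloc q hq u hu huq
        refine ⟨s * t, fun hcon => (hq.mem_or_mem hcon).elim hs ht, ?_⟩
        have h3 : s * t * δ y = t * (s * δ (y + u)) - s * (t * δ u) := by
          rw [map_add]; ring
        rw [h3]
        exact I.sub_mem (I.mul_mem_left _ hsy) (I.mul_mem_left _ htu)
      · exact hloc q hq y hy hyq
    obtain ⟨s, hs, hsy⟩ := hfin
    exact hs (hle (by rw [Submodule.mem_colon_singleton]; simpa using hsy))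
  have : (1 : B) ∈ I.colon {δ y} := by rw [hcol]; trivial
  rw [Submodule.mem_colon_singleton] at this
  simpa using this

end Pi2T

namespace Pi2T

open Ideal

variable {B : Type*} [CommRing B] [IsDedekindDomain B]

/-- In a Dedekind domain, `I ^ n` is generated by the `n`-th powers of the elements of `I`. -/
theorem pow_eq_span_pow (I : Ideal B) (n : ℕ) : I ^ n = span ((fun x => x ^ n) '' (I : Set B)) := by
  rcases eq_or_ne I ⊥ with rfl | hI
  · rcases n with _ | n
    · rw [pow_zero, Ideal.one_eq_top]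
      symm
      rw [Ideal.eq_top_iff_one]
      exact subset_span ⟨0, by simp, by simp⟩
    · rw [Ideal.bot_pow (by simp)]
      symm
      rw [Ideal.span_eq_bot]
      rintro _ ⟨x, hx, rfl⟩
      have : x = 0 := by simpa using hx
      simp [this]
  refine le_antisymm ?_ (span_le.2 ?_)
  swap
  · rintro _ ⟨x, hx, rfl⟩
    exact Ideal.pow_mem_pow hx n
  set J := span ((fun x => x ^ n) '' (I : Set B)) with hJ
  have hJle : J ≤ I ^ n := span_le.2 (by
    rintro _ ⟨x, hx, rfl⟩
    exact Ideal.pow_mem_pow hx n)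
  obtain ⟨M, hM⟩ : I ^ n ∣ J := Ideal.dvd_iff_le.2 hJle
  have hMt : M = ⊤ := by
    by_contra hne
    obtain ⟨q, hqm, hle⟩ := Ideal.exists_le_maximal _ hne
    have hq := hqm.isPrime
    have hIq : ∃ u ∈ I, u ∉ I * q := by
      by_contra hcon
      push Not at hcon
      have h1 : I * q = I * ⊤ := by
        rw [Ideal.mul_top]
        exact le_antisymm Ideal.mul_le_left hcon
      exact hqm.ne_top (mul_left_cancel₀ hI h1)
    obtain ⟨u, hu, huq⟩ := hIq
    obtain ⟨U, hU⟩ : I ∣ span {u} := Ideal.dvd_iff_le.2 ((span_singleton_le_iff_mem _).2 hu)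
    have h1 : span {u ^ n} ≤ J := (span_singleton_le_iff_mem _).2 (subset_span ⟨u, hu, rfl⟩)
    rw [← span_singleton_pow, hU, mul_pow, hM] at h1
    have h2 : M ∣ U ^ n := (mul_dvd_mul_iff_left (pow_ne_zero n hI)).1 (Ideal.dvd_iff_le.2 h1)
    have h3 : U ≤ q := hq.le_of_pow_le ((Ideal.dvd_iff_le.1 h2).trans hle)
    apply huq
    have : span {u} ≤ I * q := by rw [hU]; exact Ideal.mul_mono le_rfl h3
    exact this (mem_span_singleton_self u)
  rw [hM, hMt, Ideal.mul_top]

/-- In characteristic `p` the ideal `I ^ p` is stable under every derivation. -/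
theorem derivation_mem_pow {R : Type*} [CommRing R] [Algebra R B] (δ : Derivation R B B)
    (p : ℕ) [CharP B p] (I : Ideal B) {y : B} (hy : y ∈ I ^ p) : δ y ∈ I ^ p := by
  rw [pow_eq_span_pow] at hy ⊢
  induction hy using Submodule.span_induction with
  | mem x hx =>
    obtain ⟨z, hz, rfl⟩ := hx
    change δ (z ^ p) ∈ _
    rw [δ.leibniz_pow, ← Nat.cast_smul_eq_nsmul B, CharP.cast_eq_zero, zero_smul]
    exact Submodule.zero_mem _
  | zero => rw [map_zero]; exact Submodule.zero_mem _
  | add x y _ _ hx hy => rw [map_add]; exact Submodule.add_mem _ hx hy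
  | smul a x hx hx' =>
    rw [smul_eq_mul, δ.leibniz]
    exact Submodule.add_mem _ (Ideal.mul_mem_left _ _ hx') (by
      rw [smul_eq_mul]; exact Ideal.mul_mem_right _ _ hx)

end Pi2T
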