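import Mathlib

/-!
# Field lemmas for the torsion statements (TORS)
-/

namespace Pi2T

open Algebra MvPolynomial

/-- A finitely generated extension `L` of an algebraically closed field `k` with no nonzero
`k`-derivation is `k`. -/
theorem surj_of_der {k L : Type*} [Field k] [IsAlgClosed k] [Field L] [Algebra k L]
    [Algebra.EssFiniteType k L] (h : ∀ D : Derivation k L L, D = 0) :
    Function.Surjective (algebraMap k L) := by
  have h1 : Subsingleton (Ω[L⁄k]) := by
    refine subsingleton_of_forall_eq 0 fun w => ?_
    rw [← Module.forall_dual_apply_eq_zero_iff L w]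
    intro φ
    have h2 := h ((KaehlerDifferential.linearMapEquivDerivation k L) φ)
    have h3 : φ = 0 := by
      apply (KaehlerDifferential.linearMapEquivDerivation k L).injective
      rw [h2, map_zero]
    rw [h3]; rfl
  have : FormallyUnramified k L := ⟨h1⟩
  have := FormallyUnramified.isSeparable k L
  exact IsAlgClosed.algebraMap_bijective_of_isIntegral.2

/-- An element of a field that is integral over an algebraically closed subfield lies in it. -/
theorem mem_range_of_isIntegral {k L : Type*} [Field k] [IsAlgClosed k] [Field L] [Algebra k L]
    {x : L} (hx : IsIntegral k x) : x ∈ (algebraMap k L).range := by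
  have := Algebra.IsIntegral.adjoin (R := k) (A := L) (S := {x}) (by simpa using hx)
  obtain ⟨a, ha⟩ := (IsAlgClosed.algebraMap_bijective_of_isIntegral (k := k)
    (K := Algebra.adjoin k {x})).2 ⟨x, Algebra.subset_adjoin rfl⟩
  exact ⟨a, congrArg Subtype.val ha⟩

/-- Elements of a field whose `p`-th powers are polynomials of degree `< p` in them are algebraic:
over an algebraically closed field they are constant. -/
theorem const_of_pow_eq {k L ι : Type*} [Field k] [IsAlgClosed k] [Field L] [Algebra k L]
    [Finite ι] (p : ℕ) (x : ι → L) (Q : ι → MvPolynomial ι k)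
    (hQ : ∀ i, (Q i).totalDegree < p) (hx : ∀ i, x i ^ p = aeval x (Q i)) (i : ι) :
    x i ∈ (algebraMap k L).range := by
  classical
  cases nonempty_fintype ι
  -- the span `V` of the monomials of total degree `≤ N`, `N = card ι * p`
  set N := Fintype.card ι * p with hN
  set V : Submodule k L := Submodule.span k
    ((fun e : ι →₀ ℕ => e.prod fun j n => x j ^ n) '' {e | e.degree ≤ N}) with hV
  have hfin : V.FG := by
    rw [hV]
    refine Submodule.fg_span (Set.Finite.image _ ?_)
    have : {e : ι →₀ ℕ | e.degree ≤ N} = ⋃ d ∈ Set.Iic N, {e : ι →₀ ℕ | e.degree = d} := by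
      ext e; simp
    rw [this]
    refine Set.Finite.biUnion (Set.finite_Iic N) fun d _ => ?_
    exact Finsupp.finite_of_degree_le d |>.subset (fun e he => le_of_eq he)
  -- all polynomials in `x` lie in `V`
  have key : ∀ n : ℕ, ∀ e : ι →₀ ℕ, e.degree = n → (e.prod fun j n => x j ^ n) ∈ V := by
    intro n
    induction n using Nat.strong_induction_on with
    | _ n ih =>
      intro e he
      by_cases hle : n ≤ N
      · exact Submodule.subset_span ⟨e, by simpa [he] using hle, rfl⟩
      · push Not at hle
        -- some exponent is `≥ p`
        obtain ⟨j, hj⟩ : ∃ j, p ≤ e j := by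
          by_contra hcon
          push Not at hcon
          have : e.degree ≤ N := by
            rw [Finsupp.degree_eq_sum, hN]
            calc ∑ i, e i ≤ ∑ _i : ι, p := Finset.sum_le_sum fun i _ => (hcon i).le
              _ = Fintype.card ι * p := by simp
          omega
        -- `x^e = x^{e - p j} * x_j^p`
        set e' : ι →₀ ℕ := e - Finsupp.single j p with he'
        have hee : e = e' + Finsupp.single j p := by
          rw [he']
          exact (tsub_add_cancel_of_le (by
            rw [Finsupp.single_le_iff]; exact hj)).symm
        have hdeg : e'.degree + p = n := by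
          rw [← he, hee, map_add, Finsupp.degree_single]
        have hprod : (e.prod fun j n => x j ^ n) = (e'.prod fun j n => x j ^ n) * x j ^ p := by
          rw [hee, Finsupp.prod_add_index' (fun _ => pow_zero _) (fun _ _ _ => pow_add _ _ _)]
          congr 1
          exact Finsupp.prod_single_index (h := fun j n => x j ^ n) (pow_zero _)
        rw [hprod, hx j]
        rw [aeval_def, eval₂_eq, Finset.mul_sum]
        refine Submodule.sum_mem _ fun m hm => ?_
        have hmd : m.degree < p := by
          refine lt_of_le_of_lt ?_ (hQ j)
          have := le_totalDegree hm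
          simpa [Finsupp.degree_eq_sum, Finsupp.sum_fintype] using this
        have : (e'.prod fun j n => x j ^ n) *
            ((algebraMap k L) (coeff m (Q j)) * ∏ i ∈ m.support, x i ^ m i) =
            coeff m (Q j) • ((e' + m).prod fun j n => x j ^ n) := by
          rw [Finsupp.prod_add_index' (fun _ => pow_zero _) (fun _ _ _ => pow_add _ _ _),
            Algebra.smul_def]
          simp only [Finsupp.prod]
          ring
        rw [this]
        refine Submodule.smul_mem _ _ (ih (e' + m).degree ?_ _ rfl)
        rw [map_add]; omega
  have hmem : ∀ n : ℕ, x i ^ n ∈ V := by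
    intro n
    have := key _ (Finsupp.single i n) rfl
    rwa [Finsupp.prod_single_index (h := fun j n => x j ^ n) (pow_zero _)] at this
  have hint : IsIntegral k (x i) := by
    have hle : (Algebra.adjoin k {x i}).toSubmodule ≤ V := by
      rw [Algebra.adjoin_singleton_eq_range_aeval]
      rintro _ ⟨f, rfl⟩
      change (Polynomial.aeval (x i)) f ∈ V
      rw [Polynomial.aeval_eq_sum_range]
      exact Submodule.sum_mem _ fun n _ => Submodule.smul_mem _ _ (hmem n)
    have hfg : (Algebra.adjoin k {x i}).toSubmodule.FG := by
      have : Module.Finite k V := ⟨(Submodule.fg_top V).2 hfin⟩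
      have : IsNoetherian k V := isNoetherian_of_isNoetherianRing_of_finite k V
      have : (Submodule.comap V.subtype (Algebra.adjoin k {x i}).toSubmodule).FG :=
        IsNoetherian.noetherian _
      have h3 := this.map V.subtype
      rwa [Submodule.map_comap_subtype, inf_eq_right.2 hle] at h3
    exact IsIntegral.of_mem_of_fg (Algebra.adjoin k {x i}) hfg _ (Algebra.subset_adjoin rfl)
  exact mem_range_of_isIntegral hint

end Pi2T
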