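import Pool.Agent.Pi2.T.Ext
import Pool.Agent.Pi2.T.Ded
import Pool.Agent.Pi2.T.Fld

/-!
# `n`-torsion classes of `B = Ω ⊗ A` come from `A`, `n` invertible
-/

namespace Pi2T

open Ideal Module
open scoped Pointwise

variable {k Ω A B : Type*} [Field k] [Field Ω] [Algebra k Ω] [CommRing A] [Algebra k A]
  [CommRing B] [Algebra Ω B] [Algebra A B] [Algebra k B] [IsScalarTower k Ω B]
  [IsScalarTower k A B] [hpo : Algebra.IsPushout k Ω A B]

variable {ι : Type*} (b : Basis ι k A)

variable (Ω B) in
/-- The basis of `B` over `Ω`. -/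
noncomputable def bB : Basis ι Ω B := hpo.out.basis b

theorem bB_apply (i : ι) : bB Ω B b i = algebraMap A B (b i) := hpo.out.basis_apply b i

theorem bB_repr (a : A) (i : ι) :
    (bB Ω B b).repr (algebraMap A B a) i = algebraMap k Ω (b.repr a i) :=
  IsBaseChange.basis_repr_comp_apply b hpo.out a i

include b in
variable (k A) in
theorem bc_induction' {P : B → Prop} (y : B) (h0 : P 0)
    (ha : ∀ (x : Ω) (a : A), P (x • algebraMap A B a))
    (hadd : ∀ x y : B, P x → P y → P (x + y)) : P y := by
  rw [← (bB Ω B b).linearCombination_repr y, Finsupp.linearCombination_apply]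
  refine Finset.sum_induction _ P hadd h0 fun i _ => ?_
  simp only [bB_apply]
  exact ha _ _

/-- Apply a `k`-linear map `g : Ω → Ω` to the coordinates. -/
noncomputable def cmap (g : Ω →ₗ[k] Ω) : B →ₗ[k] B :=
  ((bB Ω B b).repr.symm.restrictScalars k).toLinearMap ∘ₗ Finsupp.mapRange.linearMap g ∘ₗ
    ((bB Ω B b).repr.restrictScalars k).toLinearMap

theorem cmap_repr (g : Ω →ₗ[k] Ω) (y : B) (i : ι) :
    (bB Ω B b).repr (cmap b g y) i = g ((bB Ω B b).repr y i) := by
  simp [cmap]

theorem cmap_smul (g : Ω →ₗ[k] Ω) (x : Ω) (a : A) :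
    cmap (B := B) b g (x • algebraMap A B a) = g x • algebraMap A B a := by
  apply (bB Ω B b).repr.injective
  ext i
  rw [cmap_repr, map_smul, map_smul, Finsupp.smul_apply, Finsupp.smul_apply, bB_repr, smul_eq_mul,
    smul_eq_mul, mul_comm x, ← Algebra.smul_def, map_smul, Algebra.smul_def, mul_comm]

section intermediate

variable (K1 : IntermediateField k Ω)

/-- Elements of `B` with coordinates in `K1`. -/
def InK (y : B) : Prop := ∀ i, (bB Ω B b).repr y i ∈ K1

variable {K1}

theorem InK.induction {P : B → Prop} {y : B} (hy : InK b K1 y) (h0 : P 0)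
    (ha : ∀ x ∈ K1, ∀ a : A, P (x • algebraMap A B a))
    (hadd : ∀ x y : B, InK b K1 x → InK b K1 y → P x → P y → P (x + y)) : P y := by
  classical
  have key : ∀ s : Finset ι, InK b K1 (∑ i ∈ s, (bB Ω B b).repr y i • bB Ω B b i) ∧
      P (∑ i ∈ s, (bB Ω B b).repr y i • bB Ω B b i) := by
    intro s
    induction s using Finset.induction_on with
    | empty => exact ⟨fun i => by simp, by simpa using h0⟩
    | insert i s hi ih =>
      have h1 : InK b K1 ((bB Ω B b).repr y i • bB Ω B b i) := by
        intro j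
        rw [map_smul, Finsupp.smul_apply, Basis.repr_self, Finsupp.single_apply]
        split_ifs
        · simpa using hy i
        · simp
      rw [Finset.sum_insert hi]
      refine ⟨fun j => ?_, hadd _ _ h1 ih.1 ?_ ih.2⟩
      · rw [map_add, Finsupp.add_apply]
        exact K1.add_mem (h1 j) (ih.1 j)
      · rw [bB_apply]
        exact ha _ (hy i) _
  have h2 := (key ((bB Ω B b).repr y).support).2
  have h3 := (bB Ω B b).linearCombination_repr y
  rw [Finsupp.linearCombination_apply, Finsupp.sum] at h3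
  rwa [h3] at h2

theorem InK.add {x y : B} (hx : InK b K1 x) (hy : InK b K1 y) : InK b K1 (x + y) := fun i => by
  rw [map_add, Finsupp.add_apply]; exact K1.add_mem (hx i) (hy i)

theorem InK.zero : InK b K1 (0 : B) := fun i => by simp

theorem InK.smul {x : Ω} (hx : x ∈ K1) (a : A) : InK b K1 (x • algebraMap A B a) := fun i => by
  rw [map_smul, Finsupp.smul_apply, bB_repr]
  exact K1.mul_mem hx (K1.algebraMap_mem _)

theorem InK.mul {x y : B} (hx : InK b K1 x) (hy : InK b K1 y) : InK b K1 (x * y) := by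
  refine hx.induction b (P := fun x => InK b K1 (x * y)) (by rw [zero_mul]; exact InK.zero b)
    ?_ ?_
  · intro c hc a
    refine hy.induction b (P := fun y => InK b K1 (c • algebraMap A B a * y))
      (by rw [mul_zero]; exact InK.zero b) ?_ ?_
    · intro d hd a'
      rw [smul_mul_smul_comm, ← map_mul]
      exact InK.smul b (K1.mul_mem hc hd) _
    · intro u v _ _ hu hv
      rw [mul_add]; exact hu.add b hv
  · intro u v _ _ hu hv
    rw [add_mul]; exact hu.add b hv

theorem InK.algMap (a : A) : InK b K1 (algebraMap A B a) := by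
  have := InK.smul (B := B) b K1.one_mem a
  rwa [one_smul] at this

theorem InK.pow {x : B} (hx : InK b K1 x) (n : ℕ) : InK b K1 (x ^ n) := by
  induction n with
  | zero => rw [pow_zero, ← map_one (algebraMap A B)]; exact InK.algMap b 1
  | succ n ih => rw [pow_succ]; exact ih.mul b hx

/-- The retraction onto `InK`. -/
structure IsRetr (K1 : IntermediateField k Ω) (ρ : Ω →ₗ[k] Ω) : Prop where
  mem : ∀ x, ρ x ∈ K1
  eq : ∀ x ∈ K1, ρ x = x
  mul : ∀ x ∈ K1, ∀ y, ρ (x * y) = x * ρ y

variable (K1) in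
theorem exists_retr : ∃ ρ : Ω →ₗ[k] Ω, IsRetr K1 ρ := by
  obtain ⟨g, hg⟩ := LinearMap.exists_leftInverse_of_injective (Algebra.linearMap K1 Ω)
    (LinearMap.ker_eq_bot.2 (algebraMap K1 Ω).injective)
  refine ⟨((Algebra.linearMap K1 Ω) ∘ₗ g).restrictScalars k, ⟨fun x => ?_, fun x hx => ?_,
    fun x hx y => ?_⟩⟩
  · simp
  · have := LinearMap.congr_fun hg ⟨x, hx⟩
    simp only [LinearMap.comp_apply, Algebra.linearMap_apply, LinearMap.id_apply] at this
    have h2 : g x = ⟨x, hx⟩ := this
    simp [h2]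
  · have h1 : x * y = (⟨x, hx⟩ : K1) • y := rfl
    simp only [LinearMap.restrictScalars_apply, LinearMap.comp_apply, Algebra.linearMap_apply]
    rw [h1, map_smul, smul_eq_mul, map_mul]
    rfl

variable {ρ : Ω →ₗ[k] Ω} (hρ : IsRetr K1 ρ)

include hρ in
theorem retr_mem (y : B) : InK b K1 (cmap b ρ y) := fun i => by
  rw [cmap_repr]; exact hρ.mem _

include hρ in
theorem retr_mul {x : B} (hx : InK b K1 x) (y : B) :
    cmap b ρ (x * y) = x * cmap b ρ y := by
  refine hx.induction b (P := fun x => cmap b ρ (x * y) = x * cmap b ρ y) (by simp) ?_ ?_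
  · intro c hc a
    refine bc_induction' (Ω := Ω) k A b (P := fun y => cmap b ρ (c • algebraMap A B a * y) =
      c • algebraMap A B a * cmap b ρ y) y (by simp) ?_ ?_
    · intro d a'
      rw [smul_mul_smul_comm, ← map_mul, cmap_smul, cmap_smul, smul_mul_smul_comm, ← map_mul,
        hρ.mul c hc]
    · intro u v hu hv
      rw [mul_add, map_add, hu, hv, map_add, mul_add]
  · intro u v _ _ hu hv
    rw [add_mul, map_add, hu, hv, add_mul]

include hρ in
theorem retr_eq_iff {y : B} : cmap b ρ y = y ↔ InK b K1 y := by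
  constructor
  · intro h; rw [← h]; exact retr_mem b hρ y
  · intro h
    apply (bB Ω B b).repr.injective
    ext i
    rw [cmap_repr, hρ.eq _ (h i)]

variable {δ : Ω →ₗ[k] Ω} (hδ : ∀ x ∈ K1, ∀ y ∈ K1, δ (x * y) = x * δ y + y * δ x)

include hδ in
theorem der_leibniz {x y : B} (hx : InK b K1 x) (hy : InK b K1 y) :
    cmap b δ (x * y) = x * cmap b δ y + y * cmap b δ x := by
  refine hx.induction b (P := fun x => cmap b δ (x * y) = x * cmap b δ y + y * cmap b δ x)
    (by simp) ?_ ?_
  · intro c hc a
    refine hy.induction b (P := fun y => cmap b δ (c • algebraMap A B a * y) =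
      c • algebraMap A B a * cmap b δ y + y * cmap b δ (c • algebraMap A B a)) (by simp) ?_ ?_
    · intro d hd a'
      rw [smul_mul_smul_comm, ← map_mul, cmap_smul, cmap_smul, cmap_smul, smul_mul_smul_comm,
        smul_mul_smul_comm, ← map_mul, ← map_mul, hδ c hc d hd, add_smul, mul_comm a']
    · intro u v _ _ hu hv
      rw [mul_add, map_add, hu, hv, map_add]
      ring
  · intro u v _ _ hu hv
    rw [add_mul, map_add, hu, hv, map_add]
    ring

include hδ in
theorem der_pow_n {x : B} (hx : InK b K1 x) (n : ℕ) :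
    cmap b δ (x ^ (n + 1)) = ((n + 1 : ℕ) : B) * (x ^ n * cmap b δ x) := by
  induction n with
  | zero => simp
  | succ n ih =>
    rw [pow_succ, der_leibniz b hδ (hx.pow b _) hx, ih]
    push_cast
    ring

/-- For an ideal generated by elements with coordinates in `K1`, the powers are, too. -/
theorem span_inK {I : Ideal B} (hI : I ≤ span {u | u ∈ I ∧ InK b K1 u}) (n : ℕ) :
    I ^ n ≤ span {u | u ∈ I ^ n ∧ InK b K1 u} := by
  induction n with
  | zero =>
    intro x _
    have h1 : (1 : B) ∈ span {u | u ∈ I ^ 0 ∧ InK b K1 u} := by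
      refine subset_span ⟨by rw [pow_zero, Ideal.one_eq_top]; trivial, ?_⟩
      rw [← map_one (algebraMap A B)]
      exact InK.algMap b 1
    rw [(Ideal.eq_top_iff_one _).2 h1]
    trivial
  | succ n ih =>
    rw [pow_succ]
    refine (Ideal.mul_mono ih hI).trans ?_
    rw [Ideal.span_mul_span', span_le]
    rintro _ ⟨u, hu, v, hv, rfl⟩
    exact subset_span ⟨Ideal.mul_mem_mul hu.1 hv.1, hu.2.mul b hv.2⟩

theorem inK_map (J : Ideal A) : J.map (algebraMap A B) ≤
    span {u | u ∈ J.map (algebraMap A B) ∧ InK b K1 u} := by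
  refine Ideal.map_le_iff_le_comap.2 fun a ha => ?_
  exact subset_span ⟨Ideal.mem_map_of_mem _ ha, InK.algMap b a⟩

theorem span_inK_mul {M N : Ideal B} (hM : M ≤ span {u | u ∈ M ∧ InK b K1 u})
    (hN : N ≤ span {u | u ∈ N ∧ InK b K1 u}) :
    M * N ≤ span {u | u ∈ M * N ∧ InK b K1 u} := by
  refine (Ideal.mul_mono hM hN).trans ?_
  rw [Ideal.span_mul_span', span_le]
  rintro _ ⟨u, hu, v, hv, rfl⟩
  exact subset_span ⟨Ideal.mul_mem_mul hu.1 hv.1, hu.2.mul b hv.2⟩

include hρ in
theorem retr_mem_ideal {M : Ideal B} (hM : M ≤ span {u | u ∈ M ∧ InK b K1 u}) {y : B}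
    (hy : y ∈ M) : cmap b ρ y ∈ M := by
  have h1 : ∀ x ∈ span {u | u ∈ M ∧ InK b K1 u}, ∀ g : B, cmap b ρ (g * x) ∈ M := by
    intro x hx
    induction hx using Submodule.span_induction with
    | mem v hv =>
      intro g
      rw [mul_comm, retr_mul b hρ hv.2]
      exact Ideal.mul_mem_right _ _ hv.1
    | zero => intro g; rw [mul_zero, map_zero]; exact Submodule.zero_mem _
    | add u v _ _ hu hv =>
      intro g
      rw [mul_add, map_add]
      exact Submodule.add_mem _ (hu g) (hv g)
    | smul a x _ hx =>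
      intro g
      rw [smul_eq_mul, ← mul_assoc]
      exact hx _
  have h2 := h1 y (hM hy) 1
  rwa [one_mul] at h2

include hδ in
theorem der_algebraMap (a : A) : cmap b δ (algebraMap A B a) = 0 := by
  have h1 : δ 1 = 0 := by
    have h := hδ 1 K1.one_mem 1 K1.one_mem
    rw [mul_one, one_mul] at h
    exact left_eq_add.1 h
  have h2 := cmap_smul (B := B) b δ 1 a
  rwa [one_smul, h1, zero_smul] at h2

include hρ hδ in
theorem der_mem_pow {I : Ideal B} (hI : I ≤ span {u | u ∈ I ∧ InK b K1 u}) (n : ℕ) :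
    ∀ y ∈ I ^ (n + 1), InK b K1 y → cmap b δ y ∈ I ^ n := by
  induction n with
  | zero => intro y _ _; rw [pow_zero, Ideal.one_eq_top]; trivial
  | succ n ih =>
    intro y hy hyK
    set U : Set B := {u | u ∈ I ^ (n + 1) ∧ InK b K1 u} * {u | u ∈ I ∧ InK b K1 u} with hU
    have hyU : y ∈ span U := by
      rw [hU, ← Ideal.span_mul_span']
      rw [pow_succ] at hy
      exact Ideal.mul_mono (span_inK b hI (n + 1)) hI hy
    have h1 : ∀ x ∈ span U, ∀ g : B, cmap b δ (cmap b ρ (g * x)) ∈ I ^ (n + 1) := by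
      intro x hx
      induction hx using Submodule.span_induction with
      | mem w hw =>
        intro g
        obtain ⟨u, hu, v, hv, rfl⟩ := hw
        have huv : InK b K1 (u * v) := hu.2.mul b hv.2
        rw [mul_comm, retr_mul b hρ huv, der_leibniz b hδ huv (retr_mem b hρ g),
          der_leibniz b hδ hu.2 hv.2]
        refine Submodule.add_mem _ (Ideal.mul_mem_right _ _ (Ideal.mul_mem_right _ _ hu.1))
          (Ideal.mul_mem_left _ _ (Submodule.add_mem _ (Ideal.mul_mem_right _ _ hu.1) ?_))
        rw [pow_succ', ← smul_eq_mul]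
        exact Ideal.mul_mem_mul hv.1 (ih u hu.1 hu.2)
      | zero => intro g; rw [mul_zero, map_zero, map_zero]; exact Submodule.zero_mem _
      | add u v _ _ hu hv =>
        intro g
        rw [mul_add, map_add, map_add]
        exact Submodule.add_mem _ (hu g) (hv g)
      | smul a x _ hx =>
        intro g
        rw [smul_eq_mul, ← mul_assoc]
        exact hx _
    have h2 := h1 y hyU 1
    rwa [one_mul, (retr_eq_iff b hρ).2 hyK] at h2

include hρ hδ in
theorem der_mem_pow_mul {I : Ideal B} (hI : I ≤ span {u | u ∈ I ∧ InK b K1 u}) (J : Ideal A)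
    (n : ℕ) {y : B} (hy : y ∈ I ^ (n + 1) * J.map (algebraMap A B)) (hyK : InK b K1 y) :
    cmap b δ y ∈ I ^ n * J.map (algebraMap A B) := by
  set U : Set B := {u | u ∈ I ^ (n + 1) ∧ InK b K1 u} * (algebraMap A B '' J) with hU
  have hyU : y ∈ span U := by
    rw [hU, ← Ideal.span_mul_span']
    exact Ideal.mul_mono (span_inK b hI (n + 1)) le_rfl hy
  have hle : I ^ (n + 1) ≤ I ^ n := Ideal.pow_le_pow_right (Nat.le_succ n)
  have h1 : ∀ x ∈ span U, ∀ g : B, cmap b δ (cmap b ρ (g * x)) ∈
      I ^ n * J.map (algebraMap A B) := by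
    intro x hx
    induction hx using Submodule.span_induction with
    | mem w hw =>
      intro g
      obtain ⟨u, hu, v, ⟨j, hj, rfl⟩, rfl⟩ := hw
      have hjK : InK b K1 (algebraMap A B j) := InK.algMap b j
      have hjm : algebraMap A B j ∈ J.map (algebraMap A B) := Ideal.mem_map_of_mem _ hj
      have huv : InK b K1 (u * algebraMap A B j) := hu.2.mul b hjK
      simp only
      rw [mul_comm g, retr_mul b hρ huv, der_leibniz b hδ huv (retr_mem b hρ g),
        der_leibniz b hδ hu.2 hjK, der_algebraMap b hδ, mul_zero, zero_add]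
      refine Submodule.add_mem _ (Ideal.mul_mem_right _ _ (Ideal.mul_mem_mul (hle hu.1) hjm))
        (Ideal.mul_mem_left _ _ ?_)
      rw [mul_comm (algebraMap A B j)]
      exact Ideal.mul_mem_mul (der_mem_pow b hρ hδ hI n u hu.1 hu.2) hjm
    | zero => intro g; rw [mul_zero, map_zero, map_zero]; exact Submodule.zero_mem _
    | add u v _ _ hu hv =>
      intro g
      rw [mul_add, map_add, map_add]
      exact Submodule.add_mem _ (hu g) (hv g)
    | smul a x _ hx =>
      intro g
      rw [smul_eq_mul, ← mul_assoc]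
      exact hx _
  have h2 := h1 y hyU 1
  rwa [one_mul, (retr_eq_iff b hρ).2 hyK] at h2

include hρ hδ in
/-- The key local argument. -/
theorem der_mem_of_pow [IsDedekindDomain B] {I : Ideal B} (hI0 : I ≠ ⊥)
    (hI : I ≤ span {u | u ∈ I ∧ InK b K1 u}) {J : Ideal A} (hJ : J.map (algebraMap A B) ≠ ⊥)
    {n : ℕ} (hn : IsUnit (n : B)) {f : B}
    (hIf : I ^ n * J.map (algebraMap A B) = span {f}) (hfK : InK b K1 f)
    (hDf : cmap b δ f = 0) {y : B} (hy : y ∈ I)
    (hyK : InK b K1 y) : cmap b δ y ∈ I := by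
  rcases n with _ | n
  · simp at hn
  -- local statement
  have hloc : ∀ q : Ideal B, q.IsPrime → ∀ y ∈ I, InK b K1 y → y ∉ I * q →
      ∃ s, s ∉ q ∧ s * cmap b δ y ∈ I := by
    intro q hq y hy hyK hyq
    refine exists_mul_mem (n := n) hI0 hq hy hyq ?_
    have h1 : cmap b δ (y ^ (n + 1)) ∈ I ^ (n + 1) := by
      have hle : span {cmap b δ (y ^ (n + 1))} * J.map (algebraMap A B) ≤
          I ^ (n + 1) * J.map (algebraMap A B) := by
        rw [hIf, Ideal.map, Ideal.span_mul_span', span_le]
        rintro _ ⟨_, rfl, _, ⟨j, hj, rfl⟩, rfl⟩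
        have hjm : algebraMap A B j ∈ J.map (algebraMap A B) := Ideal.mem_map_of_mem _ hj
        have hjK : InK b K1 (algebraMap A B j) := InK.algMap b j
        have h0 : y ^ (n + 1) * algebraMap A B j ∈ span {f} := by
          rw [← hIf]; exact Ideal.mul_mem_mul (Ideal.pow_mem_pow hy _) hjm
        obtain ⟨g, hg⟩ := mem_span_singleton'.1 h0
        have hg2 : y ^ (n + 1) * algebraMap A B j = f * cmap b ρ g := by
          rw [← retr_mul b hρ hfK, mul_comm f, hg,
            (retr_eq_iff b hρ).2 ((hyK.pow b _).mul b hjK)]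
        have h3 : cmap b δ (y ^ (n + 1)) * algebraMap A B j = f * cmap b δ (cmap b ρ g) := by
          have h4 := congrArg (cmap b δ) hg2
          rw [der_leibniz b hδ (hyK.pow b _) hjK, der_leibniz b hδ hfK (retr_mem b hρ g), hDf,
            der_algebraMap b hδ, mul_zero, mul_zero, zero_add, add_zero] at h4
          rw [mul_comm]
          exact h4
        simp only [SetLike.mem_coe]
        rw [h3]
        exact Ideal.mul_mem_right _ _ (mem_span_singleton_self f)
      have h5 := (mul_dvd_mul_iff_right hJ).1 (Ideal.dvd_iff_le.2 hle)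
      exact Ideal.dvd_iff_le.1 h5 (mem_span_singleton_self _)
    rw [der_pow_n b hδ hyK] at h1
    obtain ⟨u, hu⟩ := hn
    have h2 := (I ^ (n + 1)).mul_mem_left (↑u⁻¹) h1
    rwa [← mul_assoc, ← hu, Units.inv_mul, one_mul] at h2
  have hcol : (I.colon {cmap b δ y}) = ⊤ := by
    by_contra hne
    obtain ⟨q, hqm, hle⟩ := Ideal.exists_le_maximal _ hne
    have hq := hqm.isPrime
    have hIq : ∃ u ∈ I, InK b K1 u ∧ u ∉ I * q := by
      by_contra hcon
      push Not at hcon
      have h1 : I * q = I * ⊤ := by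
        rw [Ideal.mul_top]
        refine le_antisymm Ideal.mul_le_left (hI.trans (span_le.2 ?_))
        rintro u ⟨hu, huK⟩
        exact hcon u hu huK
      exact hqm.ne_top (mul_left_cancel₀ hI0 h1)
    obtain ⟨u, hu, huK, huq⟩ := hIq
    have hfin : ∃ s, s ∉ q ∧ s * cmap b δ y ∈ I := by
      by_cases hyq : y ∈ I * q
      · have h1 : y + u ∉ I * q := fun hcon => huq (by
          have := (I * q).sub_mem hcon hyq
          simpa using this)
        obtain ⟨s, hs, hsy⟩ := hloc q hq (y + u) (I.add_mem hy hu) (hyK.add b huK) h1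
        obtain ⟨t, ht, htu⟩ := hloc q hq u hu huK huq
        refine ⟨s * t, fun hcon => (hq.mem_or_mem hcon).elim hs ht, ?_⟩
        have h3 : s * t * cmap b δ y = t * (s * cmap b δ (y + u)) - s * (t * cmap b δ u) := by
          rw [map_add]; ring
        rw [h3]
        exact I.sub_mem (I.mul_mem_left _ hsy) (I.mul_mem_left _ htu)
      · exact hloc q hq y hy hyK hyq
    obtain ⟨s, hs, hsy⟩ := hfin
    exact hs (hle (by rw [Submodule.mem_colon_singleton]; simpa using hsy))
  have : (1 : B) ∈ I.colon {cmap b δ y} := by rw [hcol]; trivial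
  rw [Submodule.mem_colon_singleton] at this
  simpa using this

end intermediate

/-- **Classes whose `n`-th power is constant are constant**, `n` invertible. `hred`: the ideal `I`
is reduced and the generator `f` of `I ^ n * J1` is normalised. -/
theorem const_l [IsAlgClosed k] [IsDedekindDomain B] {n : ℕ} (hn : IsUnit (n : B)) {I : Ideal B}
    (J1 : Ideal A) (hJ1 : J1.map (algebraMap A B) ≠ ⊥)
    {f : B} (hf : f ≠ 0) (hIf : I ^ n * J1.map (algebraMap A B) = span {f}) (c0 : ι) (hc0 : (bB Ω B b).repr f c0 = 1)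
    (hred : ∀ y : B, (∀ c, (bB Ω B b).repr f c = 0 → (bB Ω B b).repr y c = 0) →
      (bB Ω B b).repr y c0 = 0 → (∀ z ∈ I, y * z ∈ span {f}) → y = 0) :
    ∃ J : Ideal A, I = J.map (algebraMap A B) := by
  classical
  have hn0 : n ≠ 0 := by rintro rfl; simp at hn
  have hI0 : I ≠ ⊥ := by
    rintro rfl
    rw [Ideal.bot_pow hn0, Ideal.bot_mul] at hIf
    exact hf (span_singleton_eq_bot.1 hIf.symm)
  set bb := bB Ω B b with hbb
  -- a subset of the basis that is a basis modulo `I`
  let π : B →ₗ[Ω] B ⧸ (I.restrictScalars Ω) := (I.restrictScalars Ω).mkQ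
  have hπ : ∀ y, π y = 0 ↔ y ∈ I := fun y => by
    simp [π]
  obtain ⟨S, -, -, hSspan, hSli⟩ := exists_linearIndepOn_extension (K := Ω)
    (v := fun c => π (bb c)) (s := ∅) (t := Set.univ) (linearIndepOn_empty _ _)
    (Set.empty_subset _)
  have h1 : ∀ j : ι, ∃ m ∈ Finsupp.supported Ω Ω S,
      Finsupp.linearCombination Ω (fun c => π (bb c)) m = π (bb j) := fun j =>
    (Finsupp.mem_span_image_iff_linearCombination Ω).1 (hSspan ⟨j, trivial, rfl⟩)
  choose m hmS hm using h1
  have hlc : ∀ l : ι →₀ Ω, Finsupp.linearCombination Ω (fun c => π (bb c)) l =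
      π (Finsupp.linearCombination Ω bb l) := fun l => by
    rw [Finsupp.linearCombination_apply, Finsupp.linearCombination_apply, map_finsuppSum]
    simp
  have hli : ∀ l ∈ Finsupp.supported Ω Ω S, Finsupp.linearCombination Ω bb l ∈ I → l = 0 := by
    intro l hl hlI
    rw [linearIndepOn_iff] at hSli
    exact hSli l hl (by rw [hlc, hπ]; exact hlI)
  set w : ι → B := fun j => bb j - Finsupp.linearCombination Ω bb (m j) with hw
  have hwI : ∀ j, w j ∈ I := fun j => by
    rw [← hπ, hw, map_sub, ← hlc, hm, sub_self]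
  -- every element of `I` is a combination of the `w j`
  have hIw : ∀ g ∈ I, g = (bb.repr g).sum fun j x => x • w j := by
    intro g hg
    have h2 : (bb.repr g).sum (fun j x => x • w j) =
        g - Finsupp.linearCombination Ω bb ((bb.repr g).sum fun j x => x • m j) := by
      have h3 : g = (bb.repr g).sum fun j x => x • bb j := by
        rw [← Finsupp.linearCombination_apply, bb.linearCombination_repr]
      have h4 : (bb.repr g).sum (fun j x => x • w j) = (bb.repr g).sum (fun j x => x • bb j) -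
          (bb.repr g).sum (fun j x => x • Finsupp.linearCombination Ω bb (m j)) := by
        rw [Finsupp.sum, Finsupp.sum, Finsupp.sum, ← Finset.sum_sub_distrib]
        refine Finset.sum_congr rfl fun j _ => ?_
        rw [hw, smul_sub]
      rw [h4, ← h3, map_finsuppSum]
      congr 1
      refine Finsupp.sum_congr fun j _ => ?_
      rw [map_smul]
    have h3 : (bb.repr g).sum (fun j x => x • m j) = 0 := by
      refine hli _ (Submodule.sum_mem _ fun j _ => Submodule.smul_mem _ _ (hmS j)) ?_
      have h4 : (bb.repr g).sum (fun j x => x • w j) ∈ I :=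
        Submodule.sum_mem (I.restrictScalars Ω) fun j _ =>
          Submodule.smul_mem (I.restrictScalars Ω) _ (hwI j)
      rw [h2] at h4
      have := I.sub_mem hg h4
      simpa using this
    rw [h2, h3, map_zero, sub_zero]
  obtain ⟨Gs, hGs⟩ := (isNoetherianRing_iff_ideal_fg B).1 inferInstance I
  set s : Finset ι := Gs.biUnion fun g => (bb.repr g).support with hs
  have hgen : I ≤ span (w '' s) := by
    conv_lhs => rw [← hGs]
    rw [span_le]
    intro g hg
    have hgI : g ∈ I := by rw [← hGs]; exact subset_span hg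
    rw [SetLike.mem_coe, hIw g hgI]
    refine Submodule.sum_mem _ fun j hj => ?_
    simp only [Algebra.smul_def]
    refine Ideal.mul_mem_left _ _ (subset_span ⟨j, ?_, rfl⟩)
    exact Finset.mem_coe.2 (Finset.mem_biUnion.2 ⟨g, hg, hj⟩)
  -- the field of definition
  set T : Finset Ω := s.biUnion fun j => (m j).support.image (m j) with hT
  set K1 : IntermediateField k Ω := IntermediateField.adjoin k (T : Set Ω) with hK1
  have hmK : ∀ j ∈ s, ∀ i, m j i ∈ K1 := by
    intro j hj i
    by_cases h0 : m j i = 0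
    · rw [h0]; exact K1.zero_mem
    · refine IntermediateField.subset_adjoin _ _ (Finset.mem_coe.2 (Finset.mem_biUnion.2
        ⟨j, hj, Finset.mem_image.2 ⟨i, Finsupp.mem_support_iff.2 h0, rfl⟩⟩))
  have hrw : ∀ j i, bb.repr (w j) i = (if j = i then 1 else 0) - m j i := by
    intro j i
    rw [hw]
    simp only [map_sub, Finsupp.sub_apply, Basis.repr_linearCombination, Basis.repr_self,
      Finsupp.single_apply]
  have hwK : ∀ j ∈ s, InK b K1 (w j) := by
    intro j hj i
    rw [← hbb, hrw]
    refine K1.sub_mem ?_ (hmK j hj i)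
    split_ifs
    · exact K1.one_mem
    · exact K1.zero_mem
  have hIK : I ≤ span {u | u ∈ I ∧ InK b K1 u} := by
    refine hgen.trans (span_mono ?_)
    rintro _ ⟨j, hj, rfl⟩
    exact ⟨hwI j, hwK j hj⟩
  obtain ⟨ρ, hρ⟩ := exists_retr K1
  have hρ1 : ρ 1 = 1 := hρ.eq 1 K1.one_mem
  -- `f` has coordinates in `K1`
  have hfI : f ∈ I ^ n * J1.map (algebraMap A B) := by rw [hIf]; exact mem_span_singleton_self f
  have hfK : InK b K1 f := by
    rw [← retr_eq_iff b hρ, ← sub_eq_zero]
    refine hred _ (fun c hc => ?_) ?_ (fun z _ => ?_)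
    · rw [map_sub, Finsupp.sub_apply, cmap_repr, hc, map_zero, sub_zero]
    · rw [map_sub, Finsupp.sub_apply, cmap_repr, hc0, hρ1, sub_self]
    · rw [← hIf]
      exact Ideal.mul_mem_right _ _ (Ideal.sub_mem _ (retr_mem_ideal b hρ
        (span_inK_mul b (span_inK b hIK n) (inK_map b J1)) hfI) hfI)
  -- all derivations of `K1` vanish
  have hEss : Algebra.EssFiniteType k K1 :=
    IntermediateField.essFiniteType_iff.2 (IntermediateField.fg_adjoin_finset T)
  have hder : ∀ D : Derivation k K1 K1, D = 0 := by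
    intro D
    obtain ⟨δ, hδ0⟩ := LinearMap.exists_extend (p := (Subalgebra.toSubmodule K1.toSubalgebra))
      ((K1.val.toLinearMap ∘ₗ (D : K1 →ₗ[k] K1)))
    have hδ1 : ∀ (x : Ω) (hx : x ∈ K1), δ x = (D ⟨x, hx⟩ : Ω) := fun x hx =>
      LinearMap.congr_fun hδ0 ⟨x, hx⟩
    have hδ : ∀ x ∈ K1, ∀ y ∈ K1, δ (x * y) = x * δ y + y * δ x := by
      intro x hx y hy
      rw [hδ1 _ (K1.mul_mem hx hy), hδ1 x hx, hδ1 y hy]
      have h5 := D.leibniz (⟨x, hx⟩ : K1) ⟨y, hy⟩
      have h6 := congrArg (Subtype.val) h5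
      simpa using h6
    have hδone : δ 1 = 0 := by
      rw [hδ1 1 K1.one_mem]
      have : (⟨1, K1.one_mem⟩ : K1) = 1 := rfl
      rw [this, D.map_one_eq_zero]
      rfl
    -- `δ f = 0`
    have hδf : cmap b δ f = 0 := by
      refine hred _ (fun c hc => ?_) ?_ (fun z hz => ?_)
      · rw [cmap_repr, hc, map_zero]
      · rw [cmap_repr, hc0, hδone]
      · obtain ⟨q, rfl⟩ : ∃ q, n = q + 1 := ⟨n - 1, by omega⟩
        rw [← hIf, pow_succ, mul_right_comm]
        exact Ideal.mul_mem_mul (der_mem_pow_mul b hρ hδ hIK J1 q hfI hfK) hz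
    -- `δ (m j i) = 0`
    have hδm : ∀ j ∈ s, ∀ i, δ (m j i) = 0 := by
      intro j hj i
      have h7 : cmap b δ (w j) ∈ I :=
        der_mem_of_pow b hρ hδ hI0 hIK hJ1 hn hIf hfK hδf (hwI j) (hwK j hj)
      have h8 : cmap b δ (w j) = Finsupp.linearCombination Ω bb
          (-((m j).mapRange δ (map_zero δ))) := by
        apply bb.repr.injective
        rw [Basis.repr_linearCombination]
        ext i
        rw [hbb, cmap_repr, ← hbb, hrw, map_sub]
        rw [Finsupp.neg_apply, Finsupp.mapRange_apply]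
        split_ifs
        · rw [hδone, zero_sub]
        · rw [map_zero, zero_sub]
      rw [h8] at h7
      have h9 := hli _ (Submodule.neg_mem _ (by
        intro i hi
        apply hmS j
        rw [Finset.mem_coe, Finsupp.mem_support_iff] at hi ⊢
        intro h0
        apply hi
        rw [Finsupp.mapRange_apply, h0, map_zero])) h7
      have h10 := DFunLike.congr_fun h9 i
      simpa using h10
    -- so `δ = 0` on `K1`
    have hz : ∀ (x : Ω) (hx : x ∈ K1), δ x = 0 := by
      intro x hx
      induction hx using IntermediateField.adjoin_induction with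
      | mem x hx =>
        obtain ⟨j, hj, hx⟩ := Finset.mem_biUnion.1 (Finset.mem_coe.1 hx)
        obtain ⟨i, -, rfl⟩ := Finset.mem_image.1 hx
        exact hδm j hj i
      | algebraMap r => rw [Algebra.algebraMap_eq_smul_one, map_smul, hδone, smul_zero]
      | add x y _ _ hx hy => rw [map_add, hx, hy, add_zero]
      | inv x hxK hx =>
        by_cases h0 : x = 0
        · rw [h0, inv_zero, map_zero]
        · have h12 := hδ x hxK x⁻¹ (K1.inv_mem hxK)
          rw [mul_inv_cancel₀ h0, hδone, hx, mul_zero, add_zero] at h12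
          exact (mul_eq_zero.1 h12.symm).resolve_left h0
      | mul x y hxK hyK hx hy => rw [hδ x hxK y hyK, hx, hy, mul_zero, mul_zero, add_zero]
    ext x
    have := hz x x.2
    rw [hδ1 x x.2] at this
    simpa using this
  have hsurj := surj_of_der hder
  have hmk : ∀ j ∈ s, ∀ i, ∃ a : k, algebraMap k Ω a = m j i := by
    intro j hj i
    obtain ⟨a, ha⟩ := hsurj ⟨m j i, hmK j hj i⟩
    exact ⟨a, congrArg Subtype.val ha⟩
  have hwA : ∀ j ∈ s, ∃ a : A, algebraMap A B a = w j := by
    intro j hj
    choose a ha using hmk j hj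
    refine ⟨b j - ∑ i ∈ (m j).support, a i • b i, ?_⟩
    have h11 : w j = bb j - Finsupp.linearCombination Ω bb (m j) := rfl
    rw [map_sub, map_sum, h11, Finsupp.linearCombination_apply, Finsupp.sum, hbb, bB_apply]
    congr 1
    refine Finset.sum_congr rfl fun i _ => ?_
    rw [bB_apply, ← ha, Algebra.smul_def, Algebra.smul_def, map_mul,
      ← IsScalarTower.algebraMap_apply, ← IsScalarTower.algebraMap_apply]
  refine ⟨span {a | algebraMap A B a ∈ I}, le_antisymm ?_ ?_⟩
  · refine hgen.trans (span_le.2 ?_)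
    rintro _ ⟨j, hj, rfl⟩
    obtain ⟨a, ha⟩ := hwA j hj
    rw [SetLike.mem_coe, ← ha]
    refine Ideal.mem_map_of_mem _ (subset_span ?_)
    rw [Set.mem_ofPred_eq, ha]
    exact hwI j
  · rw [Ideal.map_span, span_le]
    rintro _ ⟨a, ha, rfl⟩
    exact ha

end Pi2T
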