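import Pool.Agent.Pi2.T.Fld

/-!
# A derivation `D` with `D t = 1`, `D ^ p = 0` and kernel the `p`-th powers
-/

namespace Pi2T

open Algebra Finset

variable {k F : Type*} [Field k] [IsAlgClosed k] [Field F] [Algebra k F]
  (p : ℕ) [Fact p.Prime] [CharP F p]

/-- If `F / k(t)` is separable, then every element of `F` is `∑ c_i ^ p * t ^ i`. -/
theorem exists_sum_pow (t : F)
    (hsep : Algebra.IsSeparable (IntermediateField.adjoin k ({t} : Set F)) F) (y : F) :
    ∃ c : ℕ → F, y = ∑ i ∈ range p, c i ^ p * t ^ i := by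
  have hp : p.Prime := Fact.out
  have : ExpChar F p := ExpChar.prime hp
  let Fp : Subfield F := (frobenius F p).fieldRange
  have hpow : ∀ z : F, z ^ p ∈ Fp := fun z => ⟨z, rfl⟩
  -- `F = Fp(t)`
  have h1 : IntermediateField.adjoin Fp ({t} : Set F) = ⊤ := by
    set E := IntermediateField.adjoin Fp ({t} : Set F) with hE
    have hle : (IntermediateField.adjoin k ({t} : Set F)).toSubfield ≤ E.toSubfield := by
      have hkE : ∀ a : k, algebraMap k F a ∈ E := by
        intro a
        obtain ⟨b, hb⟩ := IsAlgClosed.exists_pow_nat_eq a hp.pos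
        have h2 : algebraMap k F a = (⟨(algebraMap k F b) ^ p, hpow _⟩ : Fp) := by
          rw [← hb, map_pow]
        rw [h2]
        exact E.algebraMap_mem (⟨(algebraMap k F b) ^ p, hpow _⟩ : Fp)
      let E' : IntermediateField k F :=
        { E.toSubfield with algebraMap_mem' := hkE }
      have : IntermediateField.adjoin k ({t} : Set F) ≤ E' :=
        IntermediateField.adjoin_le_iff.2 (Set.singleton_subset_iff.2
          (IntermediateField.mem_adjoin_simple_self Fp t))
      exact this
    let _ : Algebra (IntermediateField.adjoin k ({t} : Set F)) E :=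
      (Subring.inclusion (S := (IntermediateField.adjoin k ({t} : Set F)).toSubring)
        (T := E.toSubring) hle).toAlgebra
    have : IsScalarTower (IntermediateField.adjoin k ({t} : Set F)) E F :=
      IsScalarTower.of_algebraMap_eq fun x => rfl
    have hs : Algebra.IsSeparable E F :=
      Algebra.isSeparable_tower_top_of_isSeparable (IntermediateField.adjoin k ({t} : Set F)) E F
    have : CharP E p := (algebraMap E F).charP (algebraMap E F).injective p
    have : ExpChar E p := ExpChar.prime hp
    have hi : IsPurelyInseparable E F := by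
      rw [isPurelyInseparable_iff_pow_mem E p]
      intro x
      refine ⟨1, ⟨⟨x ^ p, ?_⟩, by simp⟩⟩
      exact E.algebraMap_mem ⟨x ^ p, hpow x⟩
    rw [_root_.eq_top_iff]
    intro x _
    obtain ⟨z, hz⟩ := IsPurelyInseparable.surjective_algebraMap_of_isSeparable E F x
    rw [← hz]
    exact z.2
  have h2 : y ∈ IntermediateField.adjoin Fp ({t} : Set F) := by rw [h1]; trivial
  set q : Polynomial Fp := Polynomial.X ^ p - Polynomial.C ⟨t ^ p, hpow t⟩ with hq
  have hqm : q.Monic := Polynomial.monic_X_pow_sub_C _ hp.ne_zero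
  have hqt : Polynomial.aeval t q = 0 := by
    rw [hq, map_sub, map_pow, Polynomial.aeval_X, Polynomial.aeval_C]
    exact sub_self _
  have hint : IsIntegral Fp t := ⟨q, hqm, hqt⟩
  rw [← IntermediateField.mem_toSubalgebra,
    IntermediateField.adjoin_simple_toSubalgebra_of_isAlgebraic hint.isAlgebraic,
    Algebra.adjoin_singleton_eq_range_aeval] at h2
  obtain ⟨P, hP⟩ := h2
  have hP' : Polynomial.aeval t (P %ₘ q) = y := by
    rw [← hP]
    conv_rhs => rw [← Polynomial.modByMonic_add_div P q]
    simp [hqt]
  have hdeg : (P %ₘ q).natDegree < p := by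
    have h3 := Polynomial.natDegree_modByMonic_lt P hqm (by
      intro h
      have := congrArg Polynomial.natDegree h
      rw [hq, Polynomial.natDegree_X_pow_sub_C, Polynomial.natDegree_one] at this
      exact hp.ne_zero this)
    rwa [hq, Polynomial.natDegree_X_pow_sub_C] at h3
  have hc : ∀ i, ∃ c : F, c ^ p = (P %ₘ q).coeff i := fun i => ((P %ₘ q).coeff i).2
  choose c hc using hc
  refine ⟨c, ?_⟩
  rw [← hP', Polynomial.aeval_eq_sum_range' hdeg]
  refine sum_congr rfl fun i _ => ?_
  rw [hc, Algebra.smul_def]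
  rfl

/-- The derivation. -/
theorem exists_derivation [Algebra.EssFiniteType k F] (htr : Algebra.trdeg k F = 1) :
    ∃ (t : F) (D : Derivation k F F), D t = 1 ∧
      ∀ y : F, ∃ c : ℕ → F, y = ∑ i ∈ range p, c i ^ p * t ^ i := by
  have hp : p.Prime := Fact.out
  obtain ⟨s, hs, hsep⟩ := exists_isTranscendenceBasis_and_isSeparable_of_perfectField k F
  have hcard : s.card = 1 := by
    have h1 := hs.cardinalMk_eq_trdeg
    rw [htr] at h1
    simpa using h1
  obtain ⟨t, rfl⟩ := card_eq_one.1 hcard
  rw [coe_singleton] at hsep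
  have hsum := exists_sum_pow (k := k) p t hsep
  -- a nonzero derivation
  have hD : ∃ D : Derivation k F F, D ≠ 0 := by
    by_contra hcon
    push Not at hcon
    have hsurj := surj_of_der hcon
    have htt := hs.1
    have : Transcendental k t := by
      have := htt.transcendental ⟨t, by simp⟩
      simpa using this
    obtain ⟨a, ha⟩ := hsurj t
    exact this (ha ▸ isAlgebraic_algebraMap a)
  obtain ⟨D, hD⟩ := hD
  have hDp : ∀ c : F, D (c ^ p) = 0 := by
    intro c
    rw [D.leibniz_pow, ← Nat.cast_smul_eq_nsmul F, CharP.cast_eq_zero, zero_smul]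
  have hDt : D t ≠ 0 := by
    intro h0
    apply hD
    ext y
    obtain ⟨c, hc⟩ := hsum y
    rw [hc, map_sum]
    simp only [Derivation.coe_zero, Pi.zero_apply]
    refine sum_eq_zero fun i _ => ?_
    rw [D.leibniz, hDp, D.leibniz_pow, h0]
    simp
  refine ⟨t, (D t)⁻¹ • D, ?_, hsum⟩
  simp [hDt]

section consequences

variable {p}
variable {t : F} {D : Derivation k F F} (hDt : D t = 1)
  (hsum : ∀ y : F, ∃ c : ℕ → F, y = ∑ i ∈ range p, c i ^ p * t ^ i)

omit [IsAlgClosed k] [Fact p.Prime] in
theorem der_pow (c : F) : D (c ^ p) = 0 := by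
  rw [D.leibniz_pow, ← Nat.cast_smul_eq_nsmul F, CharP.cast_eq_zero, zero_smul]

omit [IsAlgClosed k] [Fact p.Prime] in
theorem der_pow_mul (c y : F) : D (c ^ p * y) = c ^ p * D y := by
  rw [D.leibniz, der_pow c]; simp

omit [IsAlgClosed k] [Fact p.Prime] in
theorem iter_pow_mul (c y : F) (n : ℕ) : D^[n] (c ^ p * y) = c ^ p * D^[n] y := by
  induction n generalizing y with
  | zero => rfl
  | succ n ih => rw [Function.iterate_succ_apply, der_pow_mul, ih, Function.iterate_succ_apply]

include hDt in
omit [IsAlgClosed k] [Fact p.Prime] [CharP F p] in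
theorem iter_t (n i : ℕ) : D^[n] (t ^ i) = (i.descFactorial n : F) * t ^ (i - n) := by
  induction n generalizing i with
  | zero => simp
  | succ n ih =>
    rw [Function.iterate_succ_apply', ih]
    have h1 : ((i.descFactorial n : ℕ) : F) * t ^ (i - n) = (i.descFactorial n) • t ^ (i - n) := by
      rw [nsmul_eq_mul]
    rw [h1, map_nsmul, D.leibniz_pow, hDt, Nat.descFactorial_succ, nsmul_eq_mul, Nat.sub_sub]
    push_cast
    simp only [smul_eq_mul, mul_one, nsmul_eq_mul]
    ring

include hDt hsum in
omit [IsAlgClosed k] [Fact p.Prime] in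
/-- `D ^ p = 0`. -/
theorem iter_p (y : F) : D^[p] y = 0 := by
  obtain ⟨c, hc⟩ := hsum y
  have hlin : ∀ (s : Finset ℕ) (f : ℕ → F) (n : ℕ), D^[n] (∑ i ∈ s, f i) = ∑ i ∈ s, D^[n] (f i) := by
    intro s f n
    induction n with
    | zero => rfl
    | succ n ih => simp only [Function.iterate_succ_apply', ih, map_sum]
  rw [hc, hlin]
  refine sum_eq_zero fun i hi => ?_
  rw [iter_pow_mul, iter_t hDt, Nat.descFactorial_eq_zero_iff_lt.2 (mem_range.1 hi)]
  simp

include hDt hsum in
omit [IsAlgClosed k] in
/-- The kernel of `D` consists of `p`-th powers. -/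
theorem exists_pow_of_der_eq_zero {y : F} (hy : D y = 0) : ∃ c : F, y = c ^ p := by
  have hp : p.Prime := Fact.out
  obtain ⟨c, hc⟩ := hsum y
  have hlin : ∀ (s : Finset ℕ) (f : ℕ → F) (n : ℕ), D^[n] (∑ i ∈ s, f i) = ∑ i ∈ s, D^[n] (f i) := by
    intro s f n
    induction n with
    | zero => rfl
    | succ n ih => simp only [Function.iterate_succ_apply', ih, map_sum]
  -- descending induction: all `c_i`, `i ≥ 1`, vanish
  have hz : ∀ m, m ≤ p → 1 ≤ m → ∀ i, m ≤ i → i < p → c i = 0 := by
    intro m hmp
    refine Nat.decreasingInduction (n := p)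
      (motive := fun m _ => 1 ≤ m → ∀ i, m ≤ i → i < p → c i = 0) ?_ ?_ hmp
    · intro m hm ih hm1 i hi hip
      rcases Nat.lt_or_ge m i with hlt | hge
      · exact ih (by omega) i hlt hip
      · have him : i = m := le_antisymm hge hi
        subst him
        have h1 : D^[i] y = 0 := by
          obtain ⟨j, rfl⟩ : ∃ j, i = j + 1 := ⟨i - 1, by omega⟩
          rw [Function.iterate_succ_apply, hy, Function.iterate_fixed (map_zero D)]
        rw [hc, hlin, Finset.sum_eq_single i] at h1
        · rw [iter_pow_mul, iter_t hDt] at h1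
          simp only [Nat.sub_self, pow_zero, mul_one, mul_eq_zero, pow_eq_zero_iff',
            Nat.descFactorial_self] at h1
          rcases h1 with h1 | h1
          · exact h1.1
          · exfalso
            rw [CharP.cast_eq_zero_iff F p] at h1
            exact absurd ((Nat.Prime.dvd_factorial hp).1 h1) (by omega)
        · intro j hj hji
          rw [iter_pow_mul, iter_t hDt]
          rcases Nat.lt_or_ge j i with h2 | h2
          · rw [Nat.descFactorial_eq_zero_iff_lt.2 h2]; simp
          · rw [ih (by omega) j (by omega) (mem_range.1 hj)]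
            simp [hp.ne_zero]
        · intro h2; exact absurd (mem_range.2 hip) h2
    · intro _ i hi hi'; omega
  refine ⟨c 0, ?_⟩
  rw [hc, Finset.sum_eq_single 0]
  · simp
  · intro i hi h0
    rw [hz 1 hp.one_lt.le le_rfl i (by omega) (mem_range.1 hi)]
    simp [hp.ne_zero]
  · intro h; exact absurd (mem_range.2 hp.pos) h

end consequences

end Pi2T
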