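import Pool.Agent.Pi2.T.Ext
import Pool.Agent.Pi2.T.Ded
import Pool.Agent.Pi2.T.Sep
import Pool.Agent.Helper99.PiP.Jacobson
import Pool.Agent.Helper99.PiP.Frob

/-!
# `p`-torsion classes of `B = Ω ⊗ A` come from `A`
-/

namespace Pi2T

open Ideal Pool.Agent.Helper99.PiP

variable {k Ω A B : Type*} [Field k] [Field Ω] [Algebra k Ω] [CommRing A] [Algebra k A]
  [CommRing B] [Algebra Ω B] [Algebra A B] [Algebra k B] [IsScalarTower k Ω B]
  [IsScalarTower k A B] [hpo : Algebra.IsPushout k Ω A B]

/-- Elements of `B` killed by `D` are `p`-th powers. -/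
theorem exists_pow_of_extD_eq_zero [IsAlgClosed Ω] (p : ℕ) [Fact p.Prime] [CharP B p]
    (D : Derivation k A A) (hker : ∀ a, D a = 0 → ∃ c : A, a = c ^ p) {y : B}
    (hy : extD k Ω A B D y = 0) : ∃ G : B, y = G ^ p := by
  have hp : p.Prime := Fact.out
  have h1 := mem_span_of_extA_eq_zero (k := k) (Ω := Ω) (B := B) (D : A →ₗ[k] A) hy
  clear hy
  induction h1 using Submodule.span_induction with
  | mem x hx =>
    obtain ⟨a, ha, rfl⟩ := hx
    obtain ⟨c, hc⟩ := hker a ha
    exact ⟨algebraMap A B c, by rw [hc, map_pow]⟩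
  | zero => exact ⟨0, by rw [zero_pow hp.ne_zero]⟩
  | add x y _ _ hx hy =>
    obtain ⟨G, rfl⟩ := hx
    obtain ⟨H, rfl⟩ := hy
    exact ⟨G + H, by rw [add_pow_char]⟩
  | smul c x _ hx =>
    obtain ⟨G, rfl⟩ := hx
    obtain ⟨d, hd⟩ := IsAlgClosed.exists_pow_nat_eq c hp.pos
    exact ⟨d • G, by rw [smul_pow, hd]⟩

theorem jac_mul {R B : Type*} [CommRing R] [CommRing B] [Algebra R B] (D : Derivation R B B)
    {f h : B} (hf : D f = h * f) (n : ℕ) : jac D h n * f = D^[n] f := by
  induction n with
  | zero => simp [jac]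
  | succ n ih =>
    rw [Function.iterate_succ_apply', ← ih, D.leibniz, hf, jac, smul_eq_mul, smul_eq_mul]
    ring

omit hpo in
theorem algebraMap_mem_span {ι : Type*} {v : ι → A} {a : A}
    (h : a ∈ Submodule.span k (Set.range v)) :
    algebraMap A B a ∈ Submodule.span Ω (Set.range fun i => algebraMap A B (v i)) := by
  induction h using Submodule.span_induction with
  | mem x hx =>
    obtain ⟨i, rfl⟩ := hx
    exact Submodule.subset_span ⟨i, rfl⟩
  | zero => rw [map_zero]; exact Submodule.zero_mem _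
  | add x y _ _ hx hy => rw [map_add]; exact Submodule.add_mem _ hx hy
  | smul c x _ hx =>
    have : algebraMap A B (c • x) = algebraMap k Ω c • algebraMap A B x := by
      rw [Algebra.smul_def, Algebra.smul_def, map_mul, ← IsScalarTower.algebraMap_apply,
        ← IsScalarTower.algebraMap_apply]
    rw [this]; exact Submodule.smul_mem _ _ hx

theorem linearIndependent_pow [IsAlgClosed k] (p : ℕ) [Fact p.Prime] [CharP A p] [IsReduced A]
    {ι : Type*} {v : ι → A} (hv : LinearIndependent k v) :
    LinearIndependent k (fun i => v i ^ p) := by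
  have hp : p.Prime := Fact.out
  rw [linearIndependent_iff'] at hv ⊢
  intro s g hg i hi
  have h1 : ∀ j, ∃ d : k, d ^ p = g j := fun j => IsAlgClosed.exists_pow_nat_eq (g j) hp.pos
  choose d hd using h1
  have h2 : (∑ j ∈ s, d j • v j) ^ p = 0 := by
    rw [sum_pow_char, ← hg]
    refine Finset.sum_congr rfl fun j _ => ?_
    rw [smul_pow, hd]
  have h3 := hv s d (pow_eq_zero_iff hp.ne_zero |>.1 h2) i hi
  rw [← hd, h3, zero_pow hp.ne_zero]

/-- If `D f = h f` with `h` in a finite dimensional constant space, then `h` is constant. -/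
theorem exists_const_log [IsAlgClosed k] [IsDomain B] [IsReduced A] (p : ℕ) [Fact p.Prime]
    [CharP k p] [CharP A p] [CharP B p]
    (D : Derivation k A A) (hDp : ∀ a, D^[p] a = 0) {f h : B} (hf : f ≠ 0)
    (hfh : extD k Ω A B D f = h * f) (V : Submodule k A) (hV : V.FG)
    (hh : h ∈ Submodule.span Ω (algebraMap A B '' V)) : ∃ h0 : A, h = algebraMap A B h0 := by
  have hp : p.Prime := Fact.out
  have : CharP Ω p := charP_of_injective_algebraMap (algebraMap k Ω).injective p
  -- Jacobson
  have h1 : (extD k Ω A B D)^[p - 1] h + h ^ p = 0 := by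
    have h2 := jac_mul (extD k Ω A B D) hfh p
    rw [extD_iter_eq_zero D p hDp, Pool.Agent.Helper99.PiP.jacobson] at h2
    exact (mul_eq_zero.1 h2).resolve_right hf
  -- a basis of `V`
  have : Module.Finite k V := ⟨(Submodule.fg_top V).2 hV⟩
  let b := Module.finBasis k V
  set v : Fin (Module.finrank k V) → A := fun i => (b i : A) with hv
  have hvli : LinearIndependent k v := b.linearIndependent.map' V.subtype (Submodule.ker_subtype V)
  have hVspan : (V : Set A) ⊆ Submodule.span k (Set.range v) := by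
    intro a ha
    have h3 := b.mem_span ⟨a, ha⟩
    have h4 := Submodule.mem_map_of_mem (f := V.subtype) h3
    rw [Submodule.map_span, ← Set.range_comp] at h4
    exact h4
  have hh2 : h ∈ Submodule.span Ω (Set.range fun i => algebraMap A B (v i)) := by
    refine Submodule.span_le.2 ?_ hh
    rintro _ ⟨a, ha, rfl⟩
    exact algebraMap_mem_span (hVspan ha)
  obtain ⟨x, hx⟩ := (Submodule.mem_span_range_iff_exists_fun Ω).1 hh2
  -- functionals
  have hli := linearIndependent_pow p hvli
  obtain ⟨g, hg⟩ := LinearMap.exists_leftInverse_of_injective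
    (Finsupp.linearCombination k (fun i => v i ^ p)) (LinearMap.ker_eq_bot.2 hli)
  have hgv : ∀ i j, g (v j ^ p) i = if i = j then 1 else 0 := by
    intro i j
    have h6 := LinearMap.congr_fun hg (Finsupp.single j 1)
    simp only [LinearMap.comp_apply, Finsupp.linearCombination_single, one_smul,
      LinearMap.id_apply] at h6
    rw [h6, Finsupp.single_apply]
    simp [eq_comm]
  have hit : ∀ n, (extD k Ω A B D)^[n] h = ∑ i, x i • algebraMap A B (D^[n] (v i)) := by
    intro n
    induction n with
    | zero => exact hx.symm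
    | succ n ih =>
      rw [Function.iterate_succ_apply', ih, map_sum]
      refine Finset.sum_congr rfl fun i _ => ?_
      rw [Derivation.map_smul, extD_algebraMap, Function.iterate_succ_apply']
  have hpow : h ^ p = ∑ i, x i ^ p • algebraMap A B (v i ^ p) := by
    rw [← hx, sum_pow_char]
    refine Finset.sum_congr rfl fun i _ => ?_
    rw [smul_pow, map_pow]
  have hfrob : ∀ i, x i ^ p = ∑ j, algebraMap k Ω (- g (D^[p - 1] (v j)) i) * x j := by
    intro i
    let l : A →ₗ[k] k := Finsupp.lapply i ∘ₗ g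
    have h7 := congrArg (extF k Ω A B l) h1
    rw [hit, hpow, map_add, map_sum, map_sum, map_zero] at h7
    simp only [map_smul, extF_algebraMap, smul_eq_mul] at h7
    have h8 : ∀ j, l (v j ^ p) = if i = j then 1 else 0 := fun j => hgv i j
    simp only [h8] at h7
    rw [add_comm, ← eq_neg_iff_add_eq_zero] at h7
    have h9 : ∑ j, x j ^ p * algebraMap k Ω (if i = j then (1 : k) else 0) = x i ^ p := by
      rw [Finset.sum_eq_single i]
      · simp
      · intro j _ hj; rw [if_neg (Ne.symm hj)]; simp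
      · simp
    rw [h9] at h7
    rw [h7, ← Finset.sum_neg_distrib]
    refine Finset.sum_congr rfl fun j _ => ?_
    rw [map_neg]
    simp only [l, LinearMap.comp_apply, Finsupp.lapply_apply]
    ring
  have hconst : ∀ i, ∃ c : k, algebraMap k Ω c = x i := fun i => frob_const p x _ hfrob i
  choose c hc using hconst
  refine ⟨∑ i, c i • v i, ?_⟩
  rw [← hx, map_sum]
  refine Finset.sum_congr rfl fun i _ => ?_
  rw [← hc, Algebra.smul_def, Algebra.smul_def, map_mul, ← IsScalarTower.algebraMap_apply,
    ← IsScalarTower.algebraMap_apply]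

omit [IsScalarTower k A B] hpo [CommRing B] [Algebra Ω B] [Algebra A B] [Algebra k B]
  [IsScalarTower k Ω B] [Field Ω] [Algebra k Ω] in
theorem derivation_pow_char (p : ℕ) [CharP A p] (D : Derivation k A A) (g : A) :
    D (g ^ p) = 0 := by
  rw [D.leibniz_pow, ← Nat.cast_smul_eq_nsmul A, CharP.cast_eq_zero, zero_smul]

omit [IsScalarTower k A B] hpo [CommRing B] [Algebra Ω B] [Algebra A B] [Algebra k B]
  [IsScalarTower k Ω B] [Field Ω] [Algebra k Ω] in
theorem smul_pow_iter (p : ℕ) [CharP A p] (D : Derivation k A A) (g : A) (m : ℕ) (a : A) :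
    (g ^ p • D)^[m] a = (g ^ m) ^ p * D^[m] a := by
  induction m with
  | zero => simp
  | succ m ih =>
    rw [Function.iterate_succ_apply', ih, Derivation.smul_apply, D.leibniz,
      derivation_pow_char, smul_zero, add_zero, smul_eq_mul, smul_eq_mul,
      Function.iterate_succ_apply', pow_succ, mul_pow]
    ring

theorem extD_smul (D : Derivation k A A) (g : A) (y : B) :
    extD k Ω A B (g • D) y = algebraMap A B g * extD k Ω A B D y := by
  refine bc_induction k Ω A (P := fun y => extD k Ω A B (g • D) y =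
    algebraMap A B g * extD k Ω A B D y) y ?_ ?_ ?_ ?_
  · simp
  · intro a
    rw [extD_algebraMap, extD_algebraMap, Derivation.smul_apply, smul_eq_mul, map_mul]
  · intro c x hx
    rw [Derivation.map_smul, hx, Derivation.map_smul, mul_smul_comm]
  · intro x z hx hz
    rw [map_add, hx, hz, map_add, mul_add]

/-- **Classes whose `p`-th power is constant are constant.** -/
theorem const_p [IsAlgClosed k] [IsAlgClosed Ω] [IsDedekindDomain A] [IsDedekindDomain B]
    (p : ℕ) [Fact p.Prime] [CharP k p] [CharP A p] [CharP B p]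
    (hk : ∀ P : Ideal A, P.IsMaximal → Function.Surjective (algebraMap k (A ⧸ P)))
    (D1 : Derivation k A A) (hDp1 : ∀ a, D1^[p] a = 0)
    (hker1 : ∀ a, D1 a = 0 → ∃ c : A, a = c ^ p)
    (hbd : ∀ D : Derivation k A A, ∃ V : Submodule k A, V.FG ∧ ∀ f h : B, f ≠ 0 →
      extD k Ω A B D f = h * f → h ∈ Submodule.span Ω (algebraMap A B '' V))
    (I : Ideal B) (J1 : Ideal A) (hJ1 : J1 ≠ ⊥) (f : B) (hf : f ≠ 0)
    (hI : I ^ p * J1.map (algebraMap A B) = span {f}) :
    ∃ (J J' : Ideal A) (x y : B), J' ≠ ⊥ ∧ x ≠ 0 ∧ y ≠ 0 ∧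
      span {x} * (I * J'.map (algebraMap A B)) = span {y} * J.map (algebraMap A B) := by
  have hp : p.Prime := Fact.out
  obtain ⟨g, hgJ, hg0⟩ := Submodule.exists_mem_ne_zero_of_ne_bot hJ1
  -- the derivation `g ^ p D`
  obtain ⟨D, hDdef⟩ : ∃ D : Derivation k A A, D = g ^ p • D1 := ⟨_, rfl⟩
  have hDp : ∀ a, D^[p] a = 0 := fun a => by rw [hDdef, smul_pow_iter, hDp1, mul_zero]
  have hker : ∀ a, D a = 0 → ∃ c : A, a = c ^ p := by
    intro a ha
    rw [hDdef, Derivation.smul_apply, smul_eq_mul] at ha
    exact hker1 a ((mul_eq_zero.1 ha).resolve_left (pow_ne_zero _ hg0))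
  -- `D f = h f`
  have h1 : extD k Ω A B D f ∈ span {f} := by
    have hgm : algebraMap A B (g ^ p) ∈ J1.map (algebraMap A B) := by
      apply Ideal.mem_map_of_mem
      rw [← Nat.succ_pred_prime hp, pow_succ]
      exact J1.mul_mem_left _ hgJ
    have key : ∀ x ∈ I ^ p * J1.map (algebraMap A B),
        extD k Ω A B D x ∈ I ^ p * J1.map (algebraMap A B) := by
      intro x hx
      induction hx using Submodule.mul_induction_on' with
      | mem_mul_mem u hu v hv =>
        rw [Derivation.leibniz]
        refine Submodule.add_mem _ ?_ ?_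
        · rw [hDdef, extD_smul, smul_eq_mul, ← mul_assoc]
          exact Ideal.mul_mem_right _ _ (Ideal.mul_mem_mul hu hgm)
        · rw [smul_eq_mul, mul_comm v]
          exact Ideal.mul_mem_mul (derivation_mem_pow _ p I hu) hv
      | add u _ v _ hu hv => rw [map_add]; exact Submodule.add_mem _ hu hv
    have h2 := key f (by rw [hI]; exact mem_span_singleton_self f)
    rwa [hI] at h2
  obtain ⟨h, hh⟩ := mem_span_singleton'.1 h1
  obtain ⟨V, hV, hVh⟩ := hbd D
  obtain ⟨h0, hh0⟩ := exists_const_log p D hDp hf hh.symm V hV (hVh f h hf hh.symm)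
  -- a constant solution `f1`
  let T : A →ₗ[k] A := (D : A →ₗ[k] A) - LinearMap.mulLeft k h0
  have hT : extA k Ω A B T f = 0 := by
    have h2 : ∀ y : B, extA k Ω A B T y = extD k Ω A B D y - algebraMap A B h0 * y := by
      intro y
      refine bc_induction k Ω A (P := fun y => extA k Ω A B T y =
        extD k Ω A B D y - algebraMap A B h0 * y) y ?_ ?_ ?_ ?_
      · simp
      · intro a
        simp [T]
      · intro c x hx
        rw [map_smul, hx, Derivation.map_smul, smul_sub, mul_smul_comm]
      · intro x z hx hz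
        rw [map_add, map_add, hx, hz]
        ring
    rw [h2, ← hh, hh0, sub_self]
  have h3 := mem_span_of_extA_eq_zero T hT
  obtain ⟨f1, hf1, hTf1⟩ : ∃ f1 : A, f1 ≠ 0 ∧ T f1 = 0 := by
    by_contra hcon
    push Not at hcon
    have h4 : (LinearMap.ker T : Set A) = {0} := by
      ext a
      simp only [SetLike.mem_coe, LinearMap.mem_ker, Set.mem_singleton_iff]
      constructor
      · intro ha
        by_contra hne
        exact hcon a hne ha
      · rintro rfl; exact map_zero T
    rw [h4, Set.image_singleton, map_zero, Submodule.span_zero_singleton, Submodule.mem_bot] at h3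
    exact hf h3
  have hDf1 : D f1 = h0 * f1 := by
    have : D f1 - h0 * f1 = 0 := hTf1
    exact sub_eq_zero.1 this
  set F1 := algebraMap A B f1 with hF1
  have hF1ne : F1 ≠ 0 := fun h => hf1 (algebraMap_injective k Ω A B (by rw [map_zero]; exact h))
  -- `f f1^(p-1)` is a `p`-th power
  obtain ⟨G, hG⟩ := exists_pow_of_extD_eq_zero (k := k) (Ω := Ω) p D hker
    (y := f * F1 ^ (p - 1)) (by
      obtain ⟨q, rfl⟩ : ∃ q, p = q + 1 := ⟨p - 1, (Nat.succ_pred_prime hp).symm⟩
      have h5 : extD k Ω A B D F1 = algebraMap A B h0 * F1 := by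
        rw [hF1, extD_algebraMap, hDf1, map_mul]
      have h6 : extD k Ω A B D (F1 ^ q) = (q : B) * algebraMap A B h0 * F1 ^ q := by
        rw [Derivation.leibniz_pow, h5]
        rcases q with _ | q
        · simp
        · simp only [add_tsub_cancel_right, smul_eq_mul, nsmul_eq_mul]
          ring
      rw [add_tsub_cancel_right, Derivation.leibniz, h6, ← hh, hh0]
      simp only [smul_eq_mul]
      have h7 : ((q : B) + 1) = 0 := by
        have := CharP.cast_eq_zero B (q + 1)
        push_cast at this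
        exact this
      linear_combination (algebraMap A B h0 * f * F1 ^ q) * h7)
  have hGne : G ≠ 0 := by
    rintro rfl
    rw [zero_pow hp.ne_zero] at hG
    exact (mul_ne_zero hf (pow_ne_zero _ hF1ne)) hG
  -- ideals
  set M := J1.map (algebraMap A B) with hM
  have hM0 : M ≠ ⊥ := map_ne_bot k Ω hJ1
  have h8 : (I * span {F1} * M) ^ p = (span {F1} * M ^ (p - 1)) * span {G} ^ p := by
    obtain ⟨q, rfl⟩ : ∃ q, p = q + 1 := ⟨p - 1, (Nat.succ_pred_prime hp).symm⟩
    rw [add_tsub_cancel_right] at hG ⊢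
    have h9 : (I * span {F1} * M) ^ (q + 1) = (I ^ (q + 1) * M) * span {F1} ^ (q + 1) * M ^ q := by
      rw [mul_pow, mul_pow, pow_succ M]
      ring
    rw [h9, hI, span_singleton_pow, span_singleton_pow, span_singleton_mul_span_singleton, ← hG]
    have h10 : f * F1 ^ (q + 1) = F1 * (f * F1 ^ q) := by ring
    rw [h10, ← span_singleton_mul_span_singleton]
    ring
  have hGbot : span {G} ≠ (⊥ : Ideal B) := by rw [Ne, span_singleton_eq_bot]; exact hGne
  obtain ⟨b, hb⟩ : span {G} ∣ I * span {F1} * M := by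
    have h9 : span {G} ^ p ∣ (I * span {F1} * M) ^ p := ⟨_, by rw [h8, mul_comm]⟩
    exact (UniqueFactorizationMonoid.pow_dvd_pow_iff_dvd hp.ne_zero).1 h9
  have h10 : b ^ p = (span {f1} * J1 ^ (p - 1) : Ideal A).map (algebraMap A B) := by
    rw [Ideal.map_mul, Ideal.map_pow, Ideal.map_span, Set.image_singleton]
    rw [hb, mul_pow, mul_comm (span {F1} * M ^ (p - 1))] at h8
    exact mul_left_cancel₀ (pow_ne_zero p hGbot) h8
  obtain ⟨J, hJ⟩ := exists_map_of_pow k Ω hk hp.ne_zero (span {f1} * J1 ^ (p - 1))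
    (mul_ne_zero (by rw [Ne, Ideal.zero_eq_bot, span_singleton_eq_bot]; exact hf1)
      (pow_ne_zero _ hJ1)) b h10
  exact ⟨J, J1, F1, G, hJ1, hF1ne, hGne, by rw [← hJ, ← hb]; ring⟩

end Pi2T
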