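import Pool.Agent.Pi2.T.Sep

/-!
# The derivation `D : A → A` with `D ^ p = 0` and kernel the `p`-th powers
-/

namespace Pi2T

open Algebra Finset

theorem exists_D {k A : Type*} [Field k] [IsAlgClosed k] [CommRing A] [IsDomain A]
    [IsIntegrallyClosed A] [Algebra k A] [Algebra.FiniteType k A]
    (p : ℕ) [Fact p.Prime] [CharP A p] (htr : Algebra.trdeg k (FractionRing A) = 1) :
    ∃ D : Derivation k A A, (∀ a, D^[p] a = 0) ∧ (∀ a, D a = 0 → ∃ c : A, a = c ^ p) := by
  classical
  have hp : p.Prime := Fact.out
  set F := FractionRing A with hF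
  have hinj : Function.Injective (algebraMap A F) := IsFractionRing.injective A F
  have : CharP F p := charP_of_injective_algebraMap hinj p
  obtain ⟨t, D0, hDt, hsum⟩ := exists_derivation (k := k) (F := F) p htr
  -- the common denominator
  obtain ⟨S, hS⟩ := (inferInstance : Algebra.FiniteType k A).out
  obtain ⟨s, hs⟩ := IsLocalization.exist_integer_multiples_of_finset (nonZeroDivisors A)
    (S.image fun x => D0 (algebraMap A F x))
  have hs0 : (s : A) ≠ 0 := nonZeroDivisors.coe_ne_zero s
  have h1 : ∀ a : A, ∃ b : A, algebraMap A F b = algebraMap A F s * D0 (algebraMap A F a) := by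
    intro a
    have ha : a ∈ Algebra.adjoin k (S : Set A) := by rw [hS]; trivial
    induction ha using Algebra.adjoin_induction with
    | mem x hx =>
      obtain ⟨b, hb⟩ := hs (D0 (algebraMap A F x)) (mem_image_of_mem _ hx)
      exact ⟨b, by rw [hb, Algebra.smul_def]⟩
    | algebraMap r =>
      refine ⟨0, ?_⟩
      rw [← IsScalarTower.algebraMap_apply, Derivation.map_algebraMap, map_zero, mul_zero]
    | add x y _ _ hx hy =>
      obtain ⟨b, hb⟩ := hx
      obtain ⟨c, hc⟩ := hy
      exact ⟨b + c, by rw [map_add, map_add, map_add, hb, hc, mul_add]⟩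
    | mul x y _ _ hx hy =>
      obtain ⟨b, hb⟩ := hx
      obtain ⟨c, hc⟩ := hy
      refine ⟨x * c + y * b, ?_⟩
      rw [map_mul, D0.leibniz, map_add, map_mul, map_mul, hb, hc, smul_eq_mul, smul_eq_mul]
      ring
  have h2 : ∀ a : A, ∃ b : A, algebraMap A F b =
      (algebraMap A F s) ^ p * D0 (algebraMap A F a) := by
    intro a
    obtain ⟨b, hb⟩ := h1 a
    refine ⟨(s : A) ^ (p - 1) * b, ?_⟩
    rw [map_mul, hb, map_pow, ← mul_assoc, ← pow_succ, Nat.sub_add_cancel hp.one_le]
  choose d hd using h2
  have hsm : ∀ (c : k) (x : A), algebraMap A F (c • x) = c • algebraMap A F x := fun c x => by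
    rw [Algebra.smul_def, Algebra.smul_def, map_mul, ← IsScalarTower.algebraMap_apply]
  let D : Derivation k A A := Derivation.mk'
    { toFun := d
      map_add' := fun x y => hinj (by rw [map_add, hd, hd, hd, map_add, map_add, mul_add])
      map_smul' := fun c x => hinj (by
        rw [RingHom.id_apply, hd, hsm, hsm, hd, D0.map_smul, mul_smul_comm]) }
    (fun x y => hinj (by
      simp only [LinearMap.coe_mk, AddHom.coe_mk]
      rw [hd, map_mul, D0.leibniz, map_add, smul_eq_mul, smul_eq_mul, smul_eq_mul, smul_eq_mul,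
        map_mul, map_mul, hd, hd]
      ring))
  have hDd : ∀ a, algebraMap A F (D a) = (algebraMap A F s) ^ p * D0 (algebraMap A F a) := hd
  have hit : ∀ n a, algebraMap A F (D^[n] a) =
      (algebraMap A F s) ^ (p * n) * D0^[n] (algebraMap A F a) := by
    intro n
    induction n with
    | zero => intro a; simp
    | succ n ih =>
      intro a
      rw [Function.iterate_succ_apply', hDd, ih, Function.iterate_succ_apply', mul_comm p n,
        pow_mul, der_pow_mul]
      ring
  refine ⟨D, fun a => hinj ?_, fun a ha => ?_⟩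
  · rw [hit, iter_p hDt hsum, mul_zero, map_zero]
  · have h3 := hDd a
    rw [ha, map_zero] at h3
    have h4 : algebraMap A F s ≠ 0 := fun h => hs0 (hinj (by rw [h, map_zero]))
    have h5 : D0 (algebraMap A F a) = 0 := by
      rcases mul_eq_zero.1 h3.symm with h | h
      · exact absurd h (pow_ne_zero _ h4)
      · exact h
    obtain ⟨c, hc⟩ := exists_pow_of_der_eq_zero hDt hsum h5
    have hint : IsIntegral A c := by
      refine IsIntegral.of_pow hp.pos ?_
      rw [← hc]; exact isIntegral_algebraMap
    obtain ⟨e, he⟩ := IsIntegrallyClosed.isIntegral_iff.1 hint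
    exact ⟨e, hinj (by rw [map_pow, he, hc])⟩

end Pi2T
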