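import Pool.Agent.Pi2.GamI
import Pool.Agent.Pi2.CLG
import Pool.Agent.Pi2.T.ConstL
import Pool.Agent.Pi2.T.ConstP
import Pool.Agent.Pi2.T.ExD

/-!
# Torsion classes are constant, for Gamma-algebras
-/

namespace Pi2T

open Ideal Module Polynomial PiCurve

section push

variable {k Ω A B : Type*} [Field k] [Field Ω] [Algebra k Ω] [CommRing A] [Algebra k A]
  [CommRing B] [Algebra Ω B] [Algebra A B] [Algebra k B] [IsScalarTower k Ω B]
  [IsScalarTower k A B] [hpo : Algebra.IsPushout k Ω A B] {G : AddSubmonoid ℕ}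

variable (Ω B) in
/-- The Gamma-algebra structure of a base change. -/
noncomputable def push (D : GamAlg G k A) : GamAlg G Ω B where
  B := bB Ω B D.B
  one := by rw [bB_apply, D.one, map_one]
  mul := by
    intro c d
    have h := Lead.map (algebraMap k Ω) (algebraMap A B)
      (fun r => by rw [← IsScalarTower.algebraMap_apply, ← IsScalarTower.algebraMap_apply])
      (b' := bB Ω B D.B) (fun c => (bB_apply D.B c).symm) (D.mul c d)
    rw [map_mul] at h
    rw [bB_apply, bB_apply]
    exact h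
  cofin := D.cofin

theorem push_B (D : GamAlg G k A) : (push Ω B D).B = bB Ω B D.B := rfl

end push

section unit

variable {k Ω A B : Type*} [Field k] [Field Ω] [Algebra k Ω] [CommRing A] [Algebra k A]
  [CommRing B] [Algebra Ω B] [Algebra A B] [Algebra k B] [IsScalarTower k Ω B]
  [IsScalarTower k A B] [hpo : Algebra.IsPushout k Ω A B] {G : AddSubmonoid ℕ}

variable (Ω) in
include hpo in
/-- The exponent is invertible. -/
theorem const_unit (D : GamAlg G k A) [IsAlgClosed k] [IsDedekindDomain B] {n : ℕ}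
    (hn : IsUnit (n : B)) (I0 : Ideal B) (hI0 : I0 ≠ ⊥) (J1 : Ideal A) (hJ1 : J1 ≠ ⊥) (f0 : B)
    (h0 : I0 ^ n * J1.map (algebraMap A B) = span {f0}) :
    ∃ (J : Ideal A) (x y : B), x ≠ 0 ∧ y ≠ 0 ∧
      span {x} * I0 = span {y} * J.map (algebraMap A B) := by
  classical
  set DB := push Ω B D with hDB
  have hJ1B : J1.map (algebraMap A B) ≠ ⊥ := map_ne_bot k Ω hJ1
  have hsne : ∀ {x : B}, x ≠ 0 → span {x} ≠ (⊥ : Ideal B) := fun {x} hx => by
    rw [Ne, span_singleton_eq_bot]; exact hx
  -- the ideal of minimal codimension in the class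
  let P : ℕ → Prop := fun d => ∃ (I : Ideal B) (x y : B), x ≠ 0 ∧ y ≠ 0 ∧
    span {x} * I0 = span {y} * I ∧ finrank Ω (B ⧸ I) = d
  have hP : ∃ d, P d := ⟨_, I0, 1, 1, one_ne_zero, one_ne_zero, rfl, rfl⟩
  obtain ⟨I, x, y, hx, hy, hxy, hcod⟩ := Nat.find_spec hP
  have hmin : ∀ m, m < Nat.find hP → ¬ P m := fun m hm => Nat.find_min hP hm
  rw [← hcod] at hmin
  have hI : I ≠ ⊥ := by
    rintro rfl
    rw [Ideal.mul_bot] at hxy
    exact (mul_ne_zero (hsne hx) hI0) hxy
  -- a generator
  have h1 : span {y ^ n} * (I ^ n * J1.map (algebraMap A B)) = span {x ^ n * f0} := by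
    rw [← span_singleton_mul_span_singleton, ← h0, ← mul_assoc, ← mul_assoc,
      ← span_singleton_pow, ← span_singleton_pow, ← mul_pow, ← mul_pow, hxy]
  obtain ⟨f1, hf1⟩ : ∃ f1, x ^ n * f0 = f1 * y ^ n := by
    have h2 : x ^ n * f0 ∈ span {y ^ n} := by
      have h3 : x ^ n * f0 ∈ span {y ^ n} * (I ^ n * J1.map (algebraMap A B)) := by
        rw [h1]; exact mem_span_singleton_self _
      have h4 : span {y ^ n} * (I ^ n * J1.map (algebraMap A B)) ≤ span {y ^ n} :=
        Ideal.mul_le_left
      exact h4 h3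
    obtain ⟨a, ha⟩ := mem_span_singleton'.1 h2
    exact ⟨a, ha.symm⟩
  have h2 : I ^ n * J1.map (algebraMap A B) = span {f1} := by
    rw [hf1, mul_comm f1, ← span_singleton_mul_span_singleton] at h1
    exact mul_left_cancel₀ (hsne (pow_ne_zero n hy)) h1
  have hf1 : f1 ≠ 0 := by
    rintro rfl
    rw [span_singleton_eq_bot.2 rfl] at h2
    exact (mul_ne_zero (pow_ne_zero n hI) hJ1B) h2
  obtain ⟨c0, hc0⟩ := DB.exists_lead hf1
  obtain ⟨hr1, hr2⟩ := DB.lead_repr hc0
  set r := DB.B.repr f1 c0 with hr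
  set f : B := algebraMap Ω B r⁻¹ * f1 with hf
  have hru : IsUnit (algebraMap Ω B r⁻¹) := (IsUnit.mk0 _ (inv_ne_zero hr1)).map _
  have hfspan : span {f} = span {f1} := by
    rw [hf, span_singleton_mul_left_unit hru]
  have hf0 : f ≠ 0 := mul_ne_zero hru.ne_zero hf1
  have hfr : ∀ c, DB.B.repr f c = r⁻¹ * DB.B.repr f1 c := fun c => by
    rw [hf, ← Algebra.smul_def, map_smul, Finsupp.smul_apply, smul_eq_mul]
  have hlead : Lead Ω DB.B f c0 := by
    obtain ⟨s, hs⟩ := hc0
    refine ⟨Units.mk0 _ (inv_ne_zero hr1) * s, ?_⟩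
    have h3 : f - ((Units.mk0 _ (inv_ne_zero hr1) * s : Ωˣ) : Ω) • DB.B c0 =
        r⁻¹ • (f1 - (s : Ω) • DB.B c0) := by
      rw [hf, ← Algebra.smul_def, Units.val_mul, Units.val_mk0, smul_sub, smul_smul]
    rw [h3]
    exact Submodule.smul_mem _ _ hs
  obtain ⟨J, hJ⟩ := const_l D.B hn J1 hJ1B hf0 (h2.trans hfspan.symm) c0
    (by
      change DB.B.repr f c0 = 1
      rw [hfr, ← hr, inv_mul_cancel₀ hr1]) (by
      intro z hz1 hz2 hz3
      change ∀ c, DB.B.repr f c = 0 → DB.B.repr z c = 0 at hz1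
      change DB.B.repr z c0 = 0 at hz2
      by_contra hz0
      -- `z` has smaller degree
      obtain ⟨d, hd⟩ := DB.exists_lead hz0
      have hdlt : (d : ℕ) < c0 := by
        apply DB.lead_lt hd
        rw [DB.mem_lt_iff]
        intro c hc
        rcases hc.lt_or_eq with hlt | heq
        · apply hz1
          rw [hfr, hr2 c hlt, mul_zero]
        · have : c0 = c := Subtype.ext heq
          rw [← this]; exact hz2
      have hle : span {z} * I ≤ span {f} := by
        rw [Ideal.mul_le]
        intro a ha b hb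
        obtain ⟨e, rfl⟩ := mem_span_singleton'.1 ha
        rw [mul_assoc]
        exact Ideal.mul_mem_left _ _ (hz3 b hb)
      obtain ⟨I', hI'⟩ := Ideal.dvd_iff_le.2 hle
      have hI'0 : I' ≠ ⊥ := by
        rintro rfl
        rw [Ideal.mul_bot] at hI'
        exact (mul_ne_zero (hsne hz0) hI) hI'
      have hcount : (d : ℕ) + finrank Ω (B ⧸ I) = c0 + finrank Ω (B ⧸ I') := by
        have h4 : finrank Ω (B ⧸ span {z} * I) = finrank Ω (B ⧸ span {f} * I') := by rw [hI']
        rw [finrank_quot_mul DB (hsne hz0) hI, finrank_quot_mul DB (hsne hf0) hI'0,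
          DB.finrank_quot_span hd, DB.finrank_quot_span hlead] at h4
        exact h4
      refine hmin (finrank Ω (B ⧸ I')) (by omega) ⟨I', x * z, y * f, mul_ne_zero hx hz0,
        mul_ne_zero hy hf0, ?_, rfl⟩
      rw [← span_singleton_mul_span_singleton, ← span_singleton_mul_span_singleton,
        mul_right_comm, hxy, mul_assoc, mul_comm I, hI', mul_assoc])
  exact ⟨J, x, y, hx, hy, by rw [← hJ]; exact hxy⟩

end unit

section bound

variable {k A : Type*} [Field k] [CommRing A] [Algebra k A] {G : AddSubmonoid ℕ}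

/-- Derivations raise the degree by a bounded amount. -/
theorem exists_bound (D : GamAlg G k A) (δ : Derivation k A A) :
    ∃ r : ℕ, ∀ e : G, δ (D.B e) ∈ D.lt (e + r) := by
  classical
  choose s hs using fun e : G => D.exists_mem_lt (δ (D.B e))
  set M := 2 * genus G + 1 with hM
  set r := (Finset.range (2 * M)).sup (fun e => if h : e ∈ G then s ⟨e, h⟩ else 0) with hr
  have hsmall : ∀ e : G, (e : ℕ) < 2 * M → δ (D.B e) ∈ D.lt (e + r) := by
    intro e he
    refine D.lt_mono ?_ (hs e)
    have h1 : (fun e => if h : e ∈ G then s ⟨e, h⟩ else 0) (e : ℕ) ≤ r :=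
      Finset.le_sup (f := fun e => if h : e ∈ G then s ⟨e, h⟩ else 0) (Finset.mem_range.2 he)
    simp only [e.2, dite_true] at h1
    exact h1.trans (Nat.le_add_left _ _)
  refine ⟨r, ?_⟩
  have key : ∀ N : ℕ, ∀ e : G, (e : ℕ) < N → δ (D.B e) ∈ D.lt (e + r) := by
    intro N
    induction N with
    | zero => intro e he; exact absurd he (Nat.not_lt_zero _)
    | succ N ih =>
      intro e he
      by_cases hlt : (e : ℕ) < 2 * M
      · exact hsmall e hlt
      have hMG : M ∈ G := mem_of_two_genus_le D.cofin (by omega)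
      have hdG : (e : ℕ) - M ∈ G := mem_of_two_genus_le D.cofin (by omega)
      set m : G := ⟨M, hMG⟩ with hm
      set d : G := ⟨(e : ℕ) - M, hdG⟩ with hd
      have hmd : m + d = e := by
        apply Subtype.ext
        change M + ((e : ℕ) - M) = e
        omega
      obtain ⟨t, ht⟩ := D.mul m d
      rw [hmd] at ht
      -- the lower terms
      have hlow : ∀ x ∈ D.lt e, δ x ∈ D.lt (e + r) := by
        intro x hx
        unfold GamAlg.lt ltSpan at hx
        induction hx using Submodule.span_induction with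
        | mem x hx =>
          obtain ⟨c, hc, rfl⟩ := hx
          have hc' : (c : ℕ) < e := hc
          exact D.lt_mono (by omega) (ih c (by omega))
        | zero => rw [map_zero]; exact Submodule.zero_mem _
        | add x y _ _ hx hy => rw [map_add]; exact Submodule.add_mem _ hx hy
        | smul a x _ hx => rw [Derivation.map_smul]; exact Submodule.smul_mem _ _ hx
      have h1 := hlow _ ht
      have h2 : δ (D.B m * D.B d) ∈ D.lt (e + r) := by
        rw [δ.leibniz, smul_eq_mul, smul_eq_mul]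
        refine Submodule.add_mem _ ?_ ?_
        · have h3 := D.mul_mem_lt (ih d (by change (e : ℕ) - M < N; omega)) (Lead.self (R := k)
            (b := D.B) m)
          rw [mul_comm]
          refine D.lt_mono ?_ h3
          change (e : ℕ) - M + r + M ≤ e + r
          omega
        · have h3 := D.mul_mem_lt (hsmall m (by change M < 2 * M; omega)) (Lead.self (R := k)
            (b := D.B) d)
          rw [mul_comm]
          refine D.lt_mono ?_ h3
          change M + r + ((e : ℕ) - M) ≤ e + r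
          omega
      have h3 : (t : k) • δ (D.B e) = δ (D.B m * D.B d) - δ (D.B m * D.B d - (t : k) • D.B e) := by
        rw [map_sub, Derivation.map_smul]
        abel
      have h4 : δ (D.B e) = (↑t⁻¹ : k) • ((t : k) • δ (D.B e)) := by
        rw [smul_smul, Units.inv_mul, one_smul]
      rw [h4, h3]
      exact Submodule.smul_mem _ _ (Submodule.sub_mem _ h2 h1)
  exact fun e => key _ e (Nat.lt_succ_self _)

end bound

section char

variable {k Ω A B : Type*} [Field k] [Field Ω] [Algebra k Ω] [CommRing A] [Algebra k A]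
  [CommRing B] [Algebra Ω B] [Algebra A B] [Algebra k B] [IsScalarTower k Ω B]
  [IsScalarTower k A B] [hpo : Algebra.IsPushout k Ω A B] {G : AddSubmonoid ℕ}

/-- Bounded degree of logarithmic derivatives. -/
theorem bounded_log (D : GamAlg G k A) (δ : Derivation k A A) :
    ∃ V : Submodule k A, V.FG ∧ ∀ f h : B, f ≠ 0 →
      extD k Ω A B δ f = h * f → h ∈ Submodule.span Ω (algebraMap A B '' V) := by
  obtain ⟨r, hr⟩ := exists_bound D δ
  set DB := push Ω B D with hDB
  have hdom : IsDomain B := DB.isDomain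
  have hsub : ∀ n : ℕ, DB.lt n ≤ Submodule.span Ω (algebraMap A B '' (D.lt n : Set A)) := by
    intro n
    unfold GamAlg.lt ltSpan
    rw [Submodule.span_le]
    rintro _ ⟨e, he, rfl⟩
    refine Submodule.subset_span ⟨D.B e, Submodule.subset_span ⟨e, he, rfl⟩, ?_⟩
    exact (bB_apply D.B e).symm
  have hsup : ∀ n : ℕ, ∀ a ∈ D.lt n, algebraMap A B a ∈ DB.lt n := by
    intro n a ha
    exact mem_ltSpan_map (algebraMap k Ω) (algebraMap A B)
      (fun r => by rw [← IsScalarTower.algebraMap_apply, ← IsScalarTower.algebraMap_apply])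
      (b' := DB.B) (fun c => (bB_apply D.B c).symm) ha
  have hext : ∀ n : ℕ, ∀ x ∈ DB.lt n, extD k Ω A B δ x ∈ DB.lt (n + r) := by
    intro n x hx
    unfold GamAlg.lt ltSpan at hx
    induction hx using Submodule.span_induction with
    | mem x hx =>
      obtain ⟨c, hc, rfl⟩ := hx
      have hc' : (c : ℕ) < n := hc
      have h1 : DB.B c = algebraMap A B (D.B c) := bB_apply D.B c
      rw [h1, extD_algebraMap]
      exact DB.lt_mono (by omega) (hsup _ _ (hr c))
    | zero => rw [map_zero]; exact Submodule.zero_mem _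
    | add x y _ _ hx hy => rw [map_add]; exact Submodule.add_mem _ hx hy
    | smul a x _ hx => rw [Derivation.map_smul]; exact Submodule.smul_mem _ _ hx
  refine ⟨D.lt (r + 1), ?_, ?_⟩
  · exact (Submodule.fg_iff_finiteDimensional _).2 inferInstance
  · intro f h hf hfh
    by_cases hh : h = 0
    · rw [hh]; exact Submodule.zero_mem _
    obtain ⟨c, hc⟩ := DB.exists_lead hf
    obtain ⟨d, hd⟩ := DB.exists_lead hh
    have h1 : f ∈ DB.lt (c + 1) := Lead.mem_ltSpan hc (Nat.lt_succ_self _)
    have h2 := hext _ _ h1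
    rw [hfh] at h2
    have h3 := DB.lead_lt (hd.mul DB.mul hc) h2
    have h4 : ((d + c : G) : ℕ) = d + c := rfl
    rw [h4] at h3
    exact hsub _ (Lead.mem_ltSpan hd (by omega))

end char

section fields

variable {k A : Type*} [Field k] [CommRing A] [Algebra k A] {G : AddSubmonoid ℕ}

theorem exists_pos (G : AddSubmonoid ℕ) (hG : ((G : Set ℕ)ᶜ).Finite) : ∃ c : G, 0 < (c : ℕ) :=
  ⟨⟨2 * genus G + 1, mem_of_two_genus_le hG (by omega)⟩, Nat.succ_pos _⟩

theorem finiteType (D : GamAlg G k A) : Algebra.FiniteType k A := by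
  obtain ⟨c, hc⟩ := exists_pos G D.cofin
  have h1 := D.finite_aeval hc (Lead.self (R := k) (b := D.B) c)
  let _ : Algebra k[X] A := (aeval (D.B c) : k[X] →ₐ[k] A).toAlgebra
  have h2 : Module.Finite k[X] A := h1
  have h3 : IsScalarTower k k[X] A := IsScalarTower.of_algebraMap_eq fun r =>
    ((aeval (D.B c) : k[X] →ₐ[k] A).commutes r).symm
  exact Algebra.FiniteType.trans (S := k[X]) inferInstance inferInstance

theorem trdeg_eq_one (D : GamAlg G k A) [IsDomain A] :
    Algebra.trdeg k (FractionRing A) = 1 := by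
  obtain ⟨c, hc⟩ := exists_pos G D.cofin
  have hl := Lead.self (R := k) (b := D.B) c
  have h1 := D.isIntegral_aeval hc hl
  let _ : Algebra k[X] A := (aeval (D.B c) : k[X] →ₐ[k] A).toAlgebra
  have h2 : Algebra.IsIntegral k[X] A := ⟨h1⟩
  have h3 : IsScalarTower k k[X] A := IsScalarTower.of_algebraMap_eq fun r =>
    ((aeval (D.B c) : k[X] →ₐ[k] A).commutes r).symm
  have hinj : Function.Injective (algebraMap k[X] A) :=
    transcendental_iff_injective.1 (D.transcendental hc hl)
  have h4 : FaithfulSMul k[X] A := (faithfulSMul_iff_algebraMap_injective _ _).2 hinj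
  have h5 := lift_trdeg_add_eq k k[X] A
  rw [Polynomial.trdeg_of_isDomain, trdeg_eq_zero, Cardinal.lift_one,
    Cardinal.lift_zero, add_zero] at h5
  have h6 : Algebra.trdeg k A = 1 := by
    rw [← Cardinal.lift_inj, ← h5, Cardinal.lift_one]
  have h8 : Algebra.IsAlgebraic A (FractionRing A) :=
    IsLocalization.isAlgebraic _ (nonZeroDivisors A)
  have h7 := trdeg_add_eq k A (A := FractionRing A)
  rw [h6, trdeg_eq_zero, add_zero] at h7
  exact h7.symm

theorem residue_surj (D : GamAlg G k A) [IsAlgClosed k] (P : Ideal A) (hP : P.IsMaximal) :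
    Function.Surjective (algebraMap k (A ⧸ P)) := by
  have hbot : P ≠ ⊥ := by
    rintro rfl
    obtain ⟨c, hc⟩ := exists_pos G D.cofin
    have hl := Lead.self (R := k) (b := D.B) c
    have hne : D.B c ≠ 0 := D.lead_ne_zero hl
    have h1 : Ideal.span {D.B c} = ⊤ := by
      by_contra hne'
      have h2 := hP.eq_of_le hne' bot_le
      rw [eq_comm, Ideal.span_singleton_eq_bot] at h2
      exact hne h2
    have h2 := D.finrank_quot_span hl
    rw [h1] at h2
    have h3 : Subsingleton (A ⧸ (⊤ : Ideal A)) := Ideal.Quotient.subsingleton_iff.2 rfl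
    rw [finrank_zero_of_subsingleton] at h2
    omega
  have h1 := D.finite_quot hbot
  let _ : Field (A ⧸ P) := Ideal.Quotient.field P
  exact (IsAlgClosed.algebraMap_bijective_of_isIntegral (k := k) (K := A ⧸ P)).2
end fields

section main

variable {k Ω A B : Type*} [Field k] [Field Ω] [Algebra k Ω] [CommRing A] [Algebra k A]
  [CommRing B] [Algebra Ω B] [Algebra A B] [Algebra k B] [IsScalarTower k Ω B]
  [IsScalarTower k A B] [hpo : Algebra.IsPushout k Ω A B] {G : AddSubmonoid ℕ}
  [IsAlgClosed k] [IsAlgClosed Ω] [IsDedekindDomain A] [IsDedekindDomain B]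

variable (Ω) in
include hpo in
/-- The exponent is the characteristic. -/
theorem const_char (D : GamAlg G k A) (p : ℕ) [Fact p.Prime] [CharP k p]
    (I0 : Ideal B) (J1 : Ideal A) (hJ1 : J1 ≠ ⊥) (f0 : B) (hf0 : f0 ≠ 0)
    (h0 : I0 ^ p * J1.map (algebraMap A B) = span {f0}) :
    ∃ (J J' : Ideal A) (x y : B), J' ≠ ⊥ ∧ x ≠ 0 ∧ y ≠ 0 ∧
      span {x} * (I0 * J'.map (algebraMap A B)) = span {y} * J.map (algebraMap A B) := by
  have hinj : Function.Injective (algebraMap k A) := (algebraMap k A).injective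
  have h1 : CharP A p := charP_of_injective_algebraMap hinj p
  have h2 : CharP B p := charP_of_injective_algebraMap (algebraMap k B).injective p
  have h3 := finiteType D
  obtain ⟨D1, hD1, hker⟩ := exists_D (k := k) (A := A) p (trdeg_eq_one D)
  exact const_p (Ω := Ω) p (fun P hP => residue_surj D P hP) D1 hD1 hker
    (fun δ => bounded_log D δ) I0 J1 hJ1 f0 hf0 h0

theorem cl_pow {I : Ideal B} (hI : I ≠ ⊥) (n : ℕ) : cl (I ^ n) = cl I ^ n := by
  induction n with
  | zero => rw [pow_zero, pow_zero, Ideal.one_eq_top, cl_top]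
  | succ n ih => rw [pow_succ, pow_succ, cl_mul (pow_ne_zero n hI) hI, ih]

/-- Classes with a constant `q`-th power are constant, `q` prime. -/
theorem const_prime (D : GamAlg G k A) (q : ℕ) (hq : q.Prime) (c : ClassGroup B)
    (c1 : ClassGroup A)
    (h : PiCurve.cmap (algebraMap A B) (algebraMap_injective k Ω A B) c1 = c ^ q) :
    ∃ c0 : ClassGroup A,
      PiCurve.cmap (algebraMap A B) (algebraMap_injective k Ω A B) c0 = c := by
  have hinj := algebraMap_injective k Ω A B
  obtain ⟨I, hI, rfl⟩ := cl_surjective c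
  obtain ⟨J1, hJ1, hJc⟩ := cl_surjective c1⁻¹
  have hM : J1.map (algebraMap A B) ≠ ⊥ := map_ne_bot_of_injective _ hinj hJ1
  have h1 : cl (I ^ q * J1.map (algebraMap A B)) = 1 := by
    rw [cl_mul (pow_ne_zero q hI) hM, cl_pow hI, ← cmap_cl _ hinj hJ1, hJc, map_inv, h,
      mul_inv_cancel]
  obtain ⟨f0, hf0, hspan⟩ := (cl_eq_one_iff (mul_ne_zero (pow_ne_zero q hI) hM)).1 h1
  by_cases hqk : (q : k) = 0
  · have _ : Fact q.Prime := ⟨hq⟩
    have _ : CharP k q := by
      have h2 : ringChar k ∣ q := ringChar.dvd hqk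
      rcases (Nat.dvd_prime hq).1 h2 with h3 | h3
      · exact absurd h3 (CharP.ringChar_ne_one)
      · rw [← h3]; exact ringChar.charP k
    obtain ⟨J, J', x, y, hJ', hx, hy, hxy⟩ := const_char Ω D q I J1 hJ1 f0 hf0 hspan
    have hJ'M : J'.map (algebraMap A B) ≠ ⊥ := map_ne_bot_of_injective _ hinj hJ'
    have hJ : J ≠ ⊥ := by
      rintro rfl
      rw [Ideal.map_bot, Ideal.mul_bot] at hxy
      exact (mul_ne_zero (span_singleton_ne_bot hx) (mul_ne_zero hI hJ'M)) hxy
    have hJM : J.map (algebraMap A B) ≠ ⊥ := map_ne_bot_of_injective _ hinj hJ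
    have h2 := (cl_eq_iff (mul_ne_zero hI hJ'M) hJM).2 ⟨x, y, hx, hy, hxy⟩
    rw [cl_mul hI hJ'M, ← cmap_cl _ hinj hJ', ← cmap_cl _ hinj hJ] at h2
    exact ⟨cl J * (cl J')⁻¹, by rw [map_mul, map_inv, ← h2, mul_inv_cancel_right]⟩
  · have hu : IsUnit (q : B) := by
      have h2 : ((q : k) : k) ≠ 0 := hqk
      have h3 := (IsUnit.mk0 _ h2).map (algebraMap k B)
      rwa [map_natCast] at h3
    obtain ⟨J, x, y, hx, hy, hxy⟩ := const_unit Ω D hu I hI J1 hJ1 f0 hspan
    have hJ : J ≠ ⊥ := by
      rintro rfl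
      rw [Ideal.map_bot, Ideal.mul_bot] at hxy
      exact (mul_ne_zero (span_singleton_ne_bot hx) hI) hxy
    have hJM : J.map (algebraMap A B) ≠ ⊥ := map_ne_bot_of_injective _ hinj hJ
    exact ⟨cl J, by rw [cmap_cl _ hinj hJ]; exact ((cl_eq_iff hI hJM).2 ⟨x, y, hx, hy, hxy⟩).symm⟩

/-- **Classes with a constant `n`-th power are constant.** -/
theorem const_main (D : GamAlg G k A) (n : ℕ) (hn : n ≠ 0) : ∀ (c : ClassGroup B)
    (c1 : ClassGroup A)
    (_ : PiCurve.cmap (algebraMap A B) (algebraMap_injective k Ω A B) c1 = c ^ n),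
    ∃ c0 : ClassGroup A,
      PiCurve.cmap (algebraMap A B) (algebraMap_injective k Ω A B) c0 = c := by
  induction n using Nat.recOnMul with
  | zero => exact absurd rfl hn
  | one => exact fun c c1 h => ⟨c1, by rw [h, pow_one]⟩
  | prime q hq => exact fun c c1 h => const_prime (Ω := Ω) D q hq c c1 h
  | mul a b ha hb =>
    intro c c1 h
    rw [pow_mul] at h
    obtain ⟨c2, hc2⟩ := hb (right_ne_zero_of_mul hn) (c ^ a) c1 h
    exact ha (left_ne_zero_of_mul hn) c c2 hc2

end main

end Pi2T
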