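import Mathlib

/-!
# Base change `B = Ω ⊗ A` of an algebra over a field: linear maps, derivations, kernels
-/

namespace Pi2T

open Module

variable {k Ω A B : Type*} [Field k] [Field Ω] [Algebra k Ω] [CommRing A] [Algebra k A]
  [CommRing B] [Algebra Ω B] [Algebra A B] [Algebra k B] [IsScalarTower k Ω B]
  [IsScalarTower k A B] [hpo : Algebra.IsPushout k Ω A B]

section linear

variable {M : Type*} [AddCommGroup M] [Module k M] [Module Ω M] [IsScalarTower k Ω M]

variable (k Ω A B) in
/-- The `Ω`-linear extension of a `k`-linear map `A → M`. -/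
noncomputable def ext (T : A →ₗ[k] M) : B →ₗ[Ω] M := hpo.out.lift T

@[simp] theorem ext_algebraMap (T : A →ₗ[k] M) (a : A) :
    ext k Ω A B T (algebraMap A B a) = T a := hpo.out.lift_eq T a

variable (k Ω A) in
include hpo in
@[elab_as_elim]
theorem bc_induction {P : B → Prop} (y : B) (h0 : P 0) (ha : ∀ a : A, P (algebraMap A B a))
    (hs : ∀ (c : Ω) (y : B), P y → P (c • y)) (hadd : ∀ x y : B, P x → P y → P (x + y)) : P y :=
  IsBaseChange.inductionOn hpo.out y _ h0 ha hs hadd

variable (k Ω A B) in
/-- The `Ω`-linear extension of a `k`-linear endomorphism of `A`. -/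
noncomputable def extA (T : A →ₗ[k] A) : B →ₗ[Ω] B :=
  ext k Ω A B ((IsScalarTower.toAlgHom k A B).toLinearMap ∘ₗ T)

@[simp] theorem extA_algebraMap (T : A →ₗ[k] A) (a : A) :
    extA k Ω A B T (algebraMap A B a) = algebraMap A B (T a) := ext_algebraMap _ a

variable (k Ω A B) in
/-- The `Ω`-linear extension of a `k`-linear form on `A`. -/
noncomputable def extF (l : A →ₗ[k] k) : B →ₗ[Ω] Ω :=
  ext k Ω A B (Algebra.linearMap k Ω ∘ₗ l)

@[simp] theorem extF_algebraMap (l : A →ₗ[k] k) (a : A) :
    extF k Ω A B l (algebraMap A B a) = algebraMap k Ω (l a) := ext_algebraMap _ a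

variable (k Ω A B) in
/-- The `Ω`-linear extension of a derivation. -/
noncomputable def extD (D : Derivation k A A) : Derivation Ω B B :=
  Derivation.mk' (extA k Ω A B D.toLinearMap) (by
    intro x y
    refine bc_induction k Ω A (P := fun x => extA k Ω A B D.toLinearMap (x * y) =
      x • extA k Ω A B D.toLinearMap y + y • extA k Ω A B D.toLinearMap x) x ?_ ?_ ?_ ?_
    · simp
    · intro a
      refine bc_induction k Ω A (P := fun y => extA k Ω A B D.toLinearMap (algebraMap A B a * y) =
        algebraMap A B a • extA k Ω A B D.toLinearMap y +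
          y • extA k Ω A B D.toLinearMap (algebraMap A B a)) y ?_ ?_ ?_ ?_
      · simp
      · intro b
        rw [← map_mul, extA_algebraMap, extA_algebraMap, extA_algebraMap]
        simp only [Derivation.coeFn_coe, Derivation.leibniz, smul_eq_mul, map_add, map_mul]
      · intro c x hx
        rw [mul_smul_comm, map_smul, hx, map_smul]
        simp only [smul_eq_mul, smul_add, mul_smul_comm, smul_mul_assoc]
      · intro x z hx hz
        rw [mul_add, map_add, hx, hz, map_add]
        simp only [smul_eq_mul]
        ring
    · intro c x hx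
      rw [smul_mul_assoc, map_smul, hx, map_smul]
      simp only [smul_eq_mul, smul_add, mul_smul_comm, smul_mul_assoc]
    · intro x z hx hz
      rw [add_mul, map_add, hx, hz, map_add]
      simp only [smul_eq_mul]
      ring)

theorem extD_apply (D : Derivation k A A) (y : B) :
    extD k Ω A B D y = extA k Ω A B D.toLinearMap y := rfl

@[simp] theorem extD_algebraMap (D : Derivation k A A) (a : A) :
    extD k Ω A B D (algebraMap A B a) = algebraMap A B (D a) := extA_algebraMap _ a

theorem extD_iter_algebraMap (D : Derivation k A A) (a : A) (n : ℕ) :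
    (extD k Ω A B D)^[n] (algebraMap A B a) = algebraMap A B (D^[n] a) := by
  induction n with
  | zero => rfl
  | succ n ih => rw [Function.iterate_succ_apply', ih, extD_algebraMap,
      Function.iterate_succ_apply']

theorem iter_eq_zero {R B : Type*} [CommRing R] [CommRing B] [Algebra R B]
    (D : Derivation R B B) (n : ℕ) : D^[n] 0 = 0 := Function.iterate_fixed (map_zero D) n

theorem iter_add {R B : Type*} [CommRing R] [CommRing B] [Algebra R B]
    (D : Derivation R B B) (n : ℕ) (x y : B) : D^[n] (x + y) = D^[n] x + D^[n] y := by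
  induction n with
  | zero => rfl
  | succ n ih => simp only [Function.iterate_succ_apply', ih, map_add]

theorem iter_smul {R B : Type*} [CommRing R] [CommRing B] [Algebra R B]
    (D : Derivation R B B) (n : ℕ) (c : R) (x : B) : D^[n] (c • x) = c • D^[n] x := by
  induction n with
  | zero => rfl
  | succ n ih => simp only [Function.iterate_succ_apply', ih, Derivation.map_smul]

/-- `D ^ n = 0` is inherited by the extension. -/
theorem extD_iter_eq_zero (D : Derivation k A A) (n : ℕ) (h : ∀ a, D^[n] a = 0) (y : B) :
    (extD k Ω A B D)^[n] y = 0 := by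
  refine bc_induction k Ω A (P := fun y => (extD k Ω A B D)^[n] y = 0) y ?_ ?_ ?_ ?_
  · exact iter_eq_zero _ _
  · intro a; rw [extD_iter_algebraMap, h, map_zero]
  · intro c x hx; rw [iter_smul, hx, smul_zero]
  · intro x z hx hz; rw [iter_add, hx, hz, add_zero]

variable (k Ω A B) in
/-- A `k`-linearly independent family stays `Ω`-linearly independent. -/
theorem linearIndependent_algebraMap {ι : Type*} {v : ι → A} (hv : LinearIndependent k v) :
    LinearIndependent Ω (fun i => algebraMap A B (v i)) := by
  let b := Basis.extend hv.linearIndepOn_id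
  let b' := hpo.out.basis b
  have h1 : ∀ i, v i ∈ hv.linearIndepOn_id.extend (Set.subset_univ _) := fun i =>
    hv.linearIndepOn_id.subset_extend _ (Set.mem_range_self i)
  have h2 : (fun i => algebraMap A B (v i)) = b' ∘ (fun i => ⟨v i, h1 i⟩) := by
    funext i
    simp [b', b, IsBaseChange.basis_apply]
  rw [h2]
  exact b'.linearIndependent.comp _ (fun i j hij => hv.injective (congrArg Subtype.val hij))

/-- The kernel of the extension of `T` is spanned by the kernel of `T`. -/
theorem mem_span_of_extA_eq_zero (T : A →ₗ[k] A) {y : B} (hy : extA k Ω A B T y = 0) :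
    y ∈ Submodule.span Ω (algebraMap A B '' (LinearMap.ker T : Set A)) := by
  obtain ⟨N, hN⟩ := Submodule.exists_isCompl (LinearMap.ker T)
  let bN := Basis.ofVectorSpace k N
  have hli : LinearIndependent k (fun j => T (bN j : A)) := by
    have h1 : LinearIndependent k (fun j => (bN j : A)) :=
      bN.linearIndependent.map' N.subtype (Submodule.ker_subtype N)
    refine h1.map ?_
    have h2 : Submodule.span k (Set.range fun j => (bN j : A)) ≤ N :=
      Submodule.span_le.2 (by rintro _ ⟨j, rfl⟩; exact (bN j).2)
    exact (hN.symm.disjoint).mono_left h2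
  have hli' := linearIndependent_algebraMap k Ω A B hli
  set S := Submodule.span Ω (algebraMap A B '' (LinearMap.ker T : Set A)) with hS
  have hSz : ∀ u ∈ S, extA k Ω A B T u = 0 := by
    intro u hu
    induction hu using Submodule.span_induction with
    | mem x hx =>
      obtain ⟨a, ha, rfl⟩ := hx
      have ha' : T a = 0 := ha
      rw [extA_algebraMap, ha', map_zero]
    | zero => rw [map_zero]
    | add x y _ _ hx hy => rw [map_add, hx, hy, add_zero]
    | smul c x _ hx => rw [map_smul, hx, smul_zero]
  have hdec : ∀ y : B, ∃ u ∈ S, ∃ c : _ →₀ Ω,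
      y = u + Finsupp.linearCombination Ω (fun j => algebraMap A B (bN j : A)) c := by
    intro y
    refine bc_induction k Ω A (P := fun y => ∃ u ∈ S, ∃ c : _ →₀ Ω,
      y = u + Finsupp.linearCombination Ω (fun j => algebraMap A B (bN j : A)) c) y ?_ ?_ ?_ ?_
    · exact ⟨0, S.zero_mem, 0, by simp⟩
    · intro a
      obtain ⟨u, hu, v, hv, rfl⟩ := Submodule.mem_sup.1
        (show a ∈ LinearMap.ker T ⊔ N by rw [hN.sup_eq_top]; trivial)
      refine ⟨algebraMap A B u, Submodule.subset_span ⟨u, hu, rfl⟩,
        (bN.repr ⟨v, hv⟩).mapRange (algebraMap k Ω) (map_zero _), ?_⟩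
      rw [map_add]
      have h3 := congrArg Subtype.val (bN.linearCombination_repr ⟨v, hv⟩)
      rw [Finsupp.linearCombination_apply, Finsupp.sum, AddSubmonoidClass.coe_finsetSum] at h3
      have h4 := congrArg (algebraMap A B) h3
      rw [map_sum] at h4
      rw [← h4, Finsupp.linearCombination_apply, Finsupp.sum_mapRange_index (by simp), Finsupp.sum]
      congr 1
      refine Finset.sum_congr rfl fun j _ => ?_
      rw [Submodule.coe_smul, Algebra.smul_def, map_mul, ← IsScalarTower.algebraMap_apply,
        algebraMap_smul, Algebra.smul_def]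
    · rintro c _ ⟨u, hu, d, rfl⟩
      exact ⟨c • u, S.smul_mem _ hu, c • d, by rw [smul_add, map_smul]⟩
    · rintro _ _ ⟨u, hu, d, rfl⟩ ⟨v, hv, e, rfl⟩
      exact ⟨u + v, S.add_mem hu hv, d + e, by rw [map_add]; abel⟩
  obtain ⟨u, hu, c, rfl⟩ := hdec y
  rw [map_add, hSz u hu, zero_add, Finsupp.linearCombination_apply, map_finsuppSum] at hy
  have h5 : Finsupp.linearCombination Ω (fun j => algebraMap A B (T (bN j : A))) c = 0 := by
    rw [Finsupp.linearCombination_apply, ← hy]
    refine Finsupp.sum_congr fun j _ => ?_
    rw [map_smul, extA_algebraMap]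
  have h6 := linearIndependent_iff.1 hli' c h5
  rw [h6, map_zero, add_zero]
  exact hu

end linear

end Pi2T
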