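import Pool.Agent.Pi2.T.BC

/-!
# Ideals of `A` and of `B = Ω ⊗ A` (`k` and `Ω` fields, all residue fields of `A` equal to `k`)
-/

namespace Pi2T

open Ideal

variable {k Ω A B : Type*} [Field k] [Field Ω] [Algebra k Ω] [CommRing A] [Algebra k A]
  [CommRing B] [Algebra Ω B] [Algebra A B] [Algebra k B] [IsScalarTower k Ω B]
  [IsScalarTower k A B] [hpo : Algebra.IsPushout k Ω A B]

variable (k Ω A B) in
include hpo in
theorem algebraMap_injective : Function.Injective (algebraMap A B) := by
  rw [injective_iff_map_eq_zero]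
  intro a ha
  by_contra hne
  have h1 : LinearIndependent k (fun _ : Unit => a) := linearIndependent_unique_iff.2 hne
  have h2 := linearIndependent_algebraMap k Ω A B h1
  exact h2.ne_zero () ha

variable (k Ω) in
include hpo in
/-- If `A ⧸ P = k`, then `P B` is a maximal ideal. -/
theorem isMaximal_map {P : Ideal A} (hP : P.IsMaximal)
    (hk : Function.Surjective (algebraMap k (A ⧸ P))) :
    (P.map (algebraMap A B)).IsMaximal := by
  have hinj : Function.Injective (algebraMap k (A ⧸ P)) := by
    have : Nontrivial (A ⧸ P) := Ideal.Quotient.nontrivial_iff.2 hP.ne_top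
    exact (algebraMap k (A ⧸ P)).injective
  let e : k ≃ₐ[k] (A ⧸ P) := AlgEquiv.ofBijective (Algebra.ofId k (A ⧸ P)) ⟨hinj, hk⟩
  let l : A →ₐ[k] k := (e.symm : (A ⧸ P) →ₐ[k] k).comp (Ideal.Quotient.mkₐ k P)
  have hl : ∀ a : A, a - algebraMap k A (l a) ∈ P := by
    intro a
    rw [← Ideal.Quotient.eq_zero_iff_mem, map_sub, sub_eq_zero]
    have h1 : e (l a) = Ideal.Quotient.mk P a := by simp [l]
    exact h1.symm
  have hlP : ∀ a ∈ P, l a = 0 := by
    intro a ha
    have : Ideal.Quotient.mk P a = 0 := Ideal.Quotient.eq_zero_iff_mem.2 ha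
    simp [l, this]
  let φ : B →ₐ[k] Ω := Algebra.pushoutDesc B (AlgHom.id k Ω) ((Algebra.ofId k Ω).comp l)
    (fun _ _ => mul_comm _ _)
  have hφ1 : ∀ c : Ω, φ (algebraMap Ω B c) = c := fun c => by
    simp [φ]
  have hφ2 : ∀ a : A, φ (algebraMap A B a) = algebraMap k Ω (l a) := fun a => by
    simp only [φ, Algebra.pushoutDesc_right, AlgHom.comp_apply]
    rfl
  -- the extension
  have hB : ∀ y : B, y - algebraMap Ω B (φ y) ∈ P.map (algebraMap A B) := by
    intro y
    refine bc_induction k Ω A (P := fun y => y - algebraMap Ω B (φ y) ∈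
      P.map (algebraMap A B)) y ?_ ?_ ?_ ?_
    · simp
    · intro a
      rw [hφ2, ← IsScalarTower.algebraMap_apply, IsScalarTower.algebraMap_apply k A B,
        ← map_sub]
      exact Ideal.mem_map_of_mem _ (hl a)
    · intro c x hx
      rw [Algebra.smul_def, map_mul, map_mul, hφ1, ← mul_sub]
      exact Ideal.mul_mem_left _ _ hx
    · intro x z hx hz
      rw [map_add, map_add]
      have := Ideal.add_mem _ hx hz
      convert this using 1
      ring
  have hPB : ∀ y ∈ P.map (algebraMap A B), φ y = 0 := by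
    intro y hy
    have : P.map (algebraMap A B) ≤ RingHom.ker φ := by
      rw [Ideal.map_le_iff_le_comap]
      intro a ha
      rw [Ideal.mem_comap, RingHom.mem_ker, hφ2, hlP a ha, map_zero]
    exact this hy
  rw [Ideal.isMaximal_iff]
  refine ⟨fun h1 => ?_, fun J x hJ hx hxJ => ?_⟩
  · have := hPB 1 h1
    rw [map_one] at this
    exact one_ne_zero this
  · have h1 := hB x
    set c := φ x with hc
    have hc0 : c ≠ 0 := by
      intro h0
      rw [h0, map_zero, sub_zero] at h1
      exact hx h1
    have h2 : algebraMap Ω B c ∈ J := by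
      have := J.sub_mem hxJ (hJ h1)
      simpa using this
    have h3 := J.mul_mem_left (algebraMap Ω B c⁻¹) h2
    rwa [← map_mul, inv_mul_cancel₀ hc0, map_one] at h3

variable (k Ω) in
include hpo in
theorem map_ne_bot {I : Ideal A} (hI : I ≠ ⊥) : I.map (algebraMap A B) ≠ ⊥ := by
  rw [Ne, Ideal.map_eq_bot_iff_of_injective (algebraMap_injective k Ω A B)]
  exact hI

variable (k Ω) in
include hpo in
/-- An ideal of `B` some power of which is extended from `A` is extended from `A`. -/
theorem exists_map_of_pow [IsDedekindDomain A] [IsDedekindDomain B]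
    (hk : ∀ P : Ideal A, P.IsMaximal → Function.Surjective (algebraMap k (A ⧸ P)))
    {n : ℕ} (hn : n ≠ 0) (a : Ideal A) (ha : a ≠ ⊥) :
    ∀ b : Ideal B, b ^ n = a.map (algebraMap A B) → ∃ J : Ideal A, b = J.map (algebraMap A B) := by
  induction a using IsNoetherian.induction with
  | hgt a ih =>
    intro b hb
    by_cases hat : a = ⊤
    · rw [hat, Ideal.map_top] at hb
      refine ⟨⊤, ?_⟩
      rw [Ideal.map_top]
      exact (Ideal.pow_eq_top_iff (n := n)).1 hb |>.resolve_right hn
    obtain ⟨P, hP, haP⟩ := Ideal.exists_le_maximal a hat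
    have hPB := isMaximal_map k Ω (B := B) hP (hk P hP)
    have hPbot : P ≠ ⊥ := fun h => ha (by rw [h, le_bot_iff] at haP; exact haP)
    have hPBbot := map_ne_bot k Ω (B := B) hPbot
    -- `b ≤ P B`
    have h1 : b ≤ P.map (algebraMap A B) :=
      hPB.isPrime.le_of_pow_le (hb.le.trans (Ideal.map_mono haP))
    obtain ⟨b', hb'⟩ : P.map (algebraMap A B) ∣ b := Ideal.dvd_iff_le.2 h1
    have hfin : FiniteMultiplicity P a := FiniteMultiplicity.of_not_isUnit (by
      rw [Ideal.isUnit_iff]; exact hP.ne_top) ha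
    obtain ⟨c, hc, hPc⟩ := hfin.exists_eq_pow_mul_and_not_dvd
    set m := multiplicity P a with hm
    have hmn : n ≤ m := by
      by_contra hlt
      push Not at hlt
      have h2 : P.map (algebraMap A B) ^ m * (P.map (algebraMap A B) ^ (n - m) * b' ^ n) =
          P.map (algebraMap A B) ^ m * c.map (algebraMap A B) := by
        rw [← mul_assoc, ← pow_add, Nat.add_sub_cancel' hlt.le, ← mul_pow, ← hb', hb]
        conv_lhs => rw [hc]
        rw [Ideal.map_mul, Ideal.map_pow]
      have h3 := mul_left_cancel₀ (pow_ne_zero m hPBbot) h2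
      have h4 : c.map (algebraMap A B) ≤ P.map (algebraMap A B) := by
        rw [← h3]
        exact Ideal.mul_le_left.trans (Ideal.pow_le_self (by omega))
      have h5 : c ⊔ P = ⊤ := by
        rw [sup_comm]
        by_contra hne
        have h := hP.eq_of_le hne (le_sup_left : P ≤ P ⊔ c)
        exact hPc (Ideal.dvd_iff_le.2 (by rw [h]; exact le_sup_right))
      have h6 : (⊤ : Ideal B) ≤ P.map (algebraMap A B) := by
        rw [← Ideal.map_top (algebraMap A B), ← h5, Ideal.map_sup]
        exact sup_le h4 le_rfl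
      exact hPB.ne_top (top_le_iff.1 h6)
    set a' := P ^ (m - n) * c with ha'
    have haa' : a = P ^ n * a' := by
      rw [ha', ← mul_assoc, ← pow_add, Nat.add_sub_cancel' hmn]
      exact hc
    have ha'bot : a' ≠ ⊥ := by
      rintro h
      apply ha
      rw [haa', h, Ideal.mul_bot]
    have hlt : a < a' := by
      refine lt_of_le_of_ne (by rw [haa']; exact Ideal.mul_le_right) ?_
      intro h
      have h7 : P ^ n * a' = 1 * a' := by rw [← haa', one_mul]; exact h
      have h8 := mul_right_cancel₀ ha'bot h7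
      rw [Ideal.one_eq_top] at h8
      exact hP.ne_top (((Ideal.pow_eq_top_iff (n := n)).1 h8).resolve_right hn)
    obtain ⟨J, hJ⟩ := ih a' hlt ha'bot b' (by
      have h9 : P.map (algebraMap A B) ^ n * b' ^ n =
          P.map (algebraMap A B) ^ n * a'.map (algebraMap A B) := by
        rw [← mul_pow, ← hb', hb]
        conv_lhs => rw [haa']
        rw [Ideal.map_mul, Ideal.map_pow]
      exact mul_left_cancel₀ (pow_ne_zero n hPBbot) h9)
    exact ⟨P * J, by rw [Ideal.map_mul, ← hJ, hb']⟩

end Pi2T
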